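import Mathlib
import Pool.Agent.Lib.MP_0016c7_nt.Rz.Defs
import Pool.Agent.Lib.MP_0016c7_nt.PC.DefsM
import Pool.Agent.Lib.MP_0016c7_nt.PC.Defs
import Pool.Agent.Lib.MP_0016c7_nt.PC.Defs2
import Pool.Agent.Lib.MP_0016c7_nt.PC.Iface2

set_option autoImplicit false

/-!
Block [X] (exact moments over the primes of a class modulo `8`): statements, with complete proofs
in the comments. Useful files: `Qls/QJr.lean` (calculus of `jr`), `Rz/ArithA1.lean`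
(`sq1_mul_sq2`, `squarefree_sq1`), `PC/W/P1.lean` ... `P3.lean` (`p_W1`, `p_W2`), and
`MP_0da313_nt/BV/{LargeL,SmallCor,BvL}.lean` (`OmL_eq_zero_of_large`, `OmL_eq_zero_of_small`,
`OmL_nonneg`, `OmL_le`, `psiXL_approx`).
-/

open Finset MeasureTheory Filter Topology
open scoped Real ContDiff

namespace Pool.Agent.MP0016c7.PC

open Pool.Agent.MP0016c7.Rz
open Pool.Agent.BVall (OmL)

/-- The truncated process with general weights: `TT` is the case `W = Wt`, `M = ⌊X ^ 2⌋₊`. -/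
noncomputable def LW (W : ℕ → ℕ → ℝ) (σ : ℤ) (M d : ℕ) : ℝ :=
  ∑ n ∈ Icc 1 M, ∑ l ∈ Icc 1 M, (ArithmeticFunction.moebius l : ℝ) *
    jr (2 * σ * d) (n * l) / √((n * l : ℕ) : ℝ) * W l n

/-- The mean value of the characters over the primes of the class `r` modulo `8`. -/
noncomputable def fP (r c₀ : ℕ) (σ : ℤ) (lam Z : ℝ) (N : ℕ) : ℝ :=
  psiR (fun p => p % 8 = r) lam Z (fun p => jr (2 * σ * ((c₀ * p : ℕ) : ℤ)) N)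

open Classical in
/-- Indicator function of the squares. -/
noncomputable def isq (N : ℕ) : ℝ := if IsSquare N then 1 else 0

/-- [X1] Sizes. PROOF. `OmL lam Z n ≤ 8` (`OmL_le`, `Z ≥ e`), so the second claim with `24 Z`.
First: `∑_{n ≤ x} Λ(n) - ∑_{p ≤ x} log p ≤ 2 √x log x`
(`Chebyshev.abs_psi_sub_theta_le_sqrt_mul_log` or similar, `Mathlib/NumberTheory/Chebyshev.lean`)
at `x = 3 Z`. Third: `log p ≤ Λ(p)` and Chebyshev (`Chebyshev.psi_le...`), or from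
`psiXL_approx` and the second claim. -/
def S_X1 : Prop :=
  ∀ lam : ℝ, 1 ≤ lam → ∃ C Z₀ : ℝ, 0 < C ∧ ∀ Z : ℝ, Z₀ ≤ Z →
    (∑ n ∈ (Icc 1 ⌊3 * Z⌋₊).filter (fun n => ¬ n.Prime),
      ArithmeticFunction.vonMangoldt n * OmL lam Z n ≤ C * (√Z * Real.log Z)) ∧
    (0 ≤ SO lam Z ∧ SO lam Z ≤ C * Z) ∧
    ∑ p ∈ (Icc 1 ⌊3 * Z⌋₊).filter (fun p => p.Prime), Real.log p * OmL lam Z p ≤ C * Z

/-- [X2] The characters over primes in a class. PROOF. Let `Z` be large, `3 N ≤ Z`, `N` odd.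
In `fP` only `p` with `OmL lam Z p ≠ 0` matter, they satisfy `e p > Z` (`OmL_eq_zero_of_small`),
so `p > N` and `p` is prime to `N`. (i) `N = b ^ 2`: `jr k N = (jr k b)^2 = 1` for `k = 2 σ c₀ p`
prime to `b` (`jr_mul`, `jr_sq_one`), so `fP N = psiR 1`.
(ii) `jr k N = jr k (sq1 N) * (jr k (sq2 N))^2` and for `k = 2 σ c₀ p` the last factor is `1`
(`sq2 N` is odd, divides `N`, so prime to `k`), `jr (2 σ c₀ p) a = jr (2 σ c₀) a * jr p a`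
(`jr_mul_left`), the first factor is independent of `p` and `≤ 1` in absolute value. For `p` odd,
`1[p % 8 = r] = (1/4) ∑_{u ∈ {1,-1,2,-2}} jr u r * jr u p` (`r ∈ {1,3,5,7}`; the values of
`jr (-1) p`, `jr 2 p` depend only on `p % 8`: `ZMod.χ₄`, `ZMod.χ₈` evaluations
`jacobiSym.at_neg_one`, `jacobiSym.at_two`; 16 cases). Note that `jr u n = 0` for `n` even
(also `n = 2`, and `2 % 8 ≠ r`). Hence
`|fP N| ≤ (1/4) ∑_u |∑_{p prime} log p OmL(p) jr u p jr p a|`, and the inner sum differs from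
`EU lam Z u a` by the nonprime `n`, at most `C √Z log Z` (first claim of `S_X1`). -/
def S_X2 : Prop :=
  ∀ lam : ℝ, 1 ≤ lam → ∃ C Z₀ : ℝ, 0 < C ∧ ∀ Z : ℝ, Z₀ ≤ Z →
    ∀ r ∈ ({1, 3, 5, 7} : Finset ℕ), ∀ c₀ : ℕ, (c₀ = 1 ∨ c₀ = 2) → ∀ σ : ℤ, (σ = 1 ∨ σ = -1) →
    ∀ N : ℕ, Odd N → 3 * (N : ℝ) ≤ Z →
    (IsSquare N → fP r c₀ σ lam Z N = psiR (fun p => p % 8 = r) lam Z (fun _ => 1)) ∧
    |fP r c₀ σ lam Z N| ≤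
      (∑ u ∈ ({1, -1, 2, -2} : Finset ℤ), |EU lam Z u (sq1 N)|) + C * (√Z * Real.log Z)

/-- [X3] The mass of a class. PROOF. As in `S_X2` with `N = 1`:
`psiR 1 = (1/4) ∑_u jr u r ∑_{p prime} log p OmL(p) jr u p` up to the prime `2` (negligible,
`OmL lam Z 2 = 0` for `Z` large), each inner sum is `EU lam Z u 1 + O(C √Z log Z)` (`jr n 1 = 1`);
for `u ≠ 1`: `|EU lam Z u 1| ≤ Z / log Z` (`JF_EU` with `A = 1`, `K = 0`, the term `a = 1`);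
for `u = 1`: `EU lam Z 1 1 = ∑_{n odd} Λ OmL = psiXL + O(C √Z log Z)` (the powers of `2` are not
prime, except `2`, where `OmL = 0`), and `psiXL_approx` with `A = 1`. -/
def S_X3 : Prop :=
  ∀ lam : ℝ, 1 ≤ lam → ∀ r ∈ ({1, 3, 5, 7} : Finset ℕ),
  ∀ ε' : ℝ, 0 < ε' → ∃ Z₀ : ℝ, ∀ Z : ℝ, Z₀ ≤ Z →
    |psiR (fun p => p % 8 = r) lam Z (fun _ => 1) - SO lam Z / 4| ≤ ε' * Z

/-- [X4] The sum over the nonsquares (from `JF_EU`, `S_X2`, `S_W1`). PROOF. Let `x = Z^(1-η)`,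
`K = ⌊x⌋₊`. By `S_X2` the sum is at most
`∑_{N ≤ K odd, nonsquare} d(N)^3 / √N * G(sq1 N)`, `G a = ∑_u |EU lam Z u a| + C √Z log Z`.
Write `N = a b ^ 2`, `a = sq1 N`, `b = sq2 N`, `a ≠ 1`, `a ∈ Osq K`, `b ≤ K`;
`√N = √a * b`, `d(N) ≤ d(a) d(b)^2`, the map `N ↦ (a, b)` is injective, so the sum is at most
`(∑_{a ∈ Osq K, a ≠ 1} d(a)^3 / √a * G a) (∑_{b ≤ K} d(b)^6 / b)` (model: `p_W3` in `PC/W/P3.lean`).
The second factor is `≤ (1 + log K)^64` (`S_W1`). In the first the terms `|EU|` give `≤ 4 Z / (log Z)^A`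
(`JF_EU`, `K := 3`; for each `u` the condition `u ≠ 1 ∨ a ≠ 1` holds), and
`∑_{a ≤ K} d(a)^3 / √a ≤ √K ∑_{a ≤ K} d(a)^3 / a ≤ √K (1 + log K)^8`, times `C √Z log Z`, is
`≤ C Z^(1 - η/2) (1 + log Z)^9`. With `A = 65` everything is `≤ ε' Z`. -/
def S_X4 : Prop :=
  ∀ lam : ℝ, 1 ≤ lam → ∀ η : ℝ, 0 < η → η < 1 → ∀ ε' : ℝ, 0 < ε' → ∃ Z₀ : ℝ, ∀ Z : ℝ, Z₀ ≤ Z →
    ∀ r ∈ ({1, 3, 5, 7} : Finset ℕ), ∀ c₀ : ℕ, (c₀ = 1 ∨ c₀ = 2) → ∀ σ : ℤ, (σ = 1 ∨ σ = -1) →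
    ∑ N ∈ (Icc 1 ⌊Z ^ (1 - η)⌋₊).filter (fun N => Odd N ∧ ¬ IsSquare N),
      (N.divisors.card : ℝ) ^ 3 / √(N : ℝ) * |fP r c₀ σ lam Z N| ≤ ε' * Z

/-- [X5] The size of a quadruple sum (from `S_W2`). PROOF. The nonzero terms have
`N = n₁ l₁ n₂ l₂` odd and `l_i n_i ≤ x_i`, so `N ≤ x₁ x₂`, `N ≤ ⌊x₁ x₂⌋₊`. With
`H N = |g N| / √N` for `1 ≤ N ≤ ⌊x₁ x₂⌋₊` odd, and `0` otherwise, `|quad| ≤ C₁ C₂ ∑∑∑∑ H(N)`; use
`S_W2` three times as in `p_W4` (`PC/W/P4.lean`): `∑∑∑∑ H ≤ ∑_{N ≤ M^4} d(N)^3 H(N)`. -/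
def S_X5 : Prop :=
  ∀ (W₁ W₂ : ℕ → ℕ → ℝ) (C₁ C₂ x₁ x₂ : ℝ) (M : ℕ) (g : ℕ → ℝ), (∀ l n, |W₁ l n| ≤ C₁) →
    (∀ l n, |W₂ l n| ≤ C₂) → 0 ≤ x₁ → 0 ≤ x₂ →
    (∀ l n : ℕ, x₁ < (l : ℝ) * n → W₁ l n = 0) →
    (∀ l n : ℕ, x₂ < (l : ℝ) * n → W₂ l n = 0) →
    |quad W₁ W₂ 1 M g| ≤ C₁ * C₂ * ∑ N ∈ (Icc 1 ⌊x₁ * x₂⌋₊).filter (fun N => Odd N),
      (N.divisors.card : ℝ) ^ 3 / √(N : ℝ) * |g N|

/-- [X6] The average of the product of two truncated processes. PROOF. For every `p`,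
`LW W₁ σ M (c₀ p) * LW W₂ σ M (c₀ p)` is the quadruple sum of
`μ(l₁) μ(l₂) W₁ W₂ / √N * jr (2 σ (c₀ p)) N` (`jr_mul`, model `w6_prod` in `PC/W/P6.lean`), which
vanishes for `N` even, so the condition that `N` is prime to `2 * 1` can be inserted; exchange the
finite sums. -/
def S_X6 : Prop :=
  ∀ (W₁ W₂ : ℕ → ℕ → ℝ) (r c₀ M : ℕ) (σ : ℤ) (lam Z : ℝ),
    psiR (fun p => p % 8 = r) lam Z (fun p => LW W₁ σ M (c₀ * p) * LW W₂ σ M (c₀ * p)) =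
      quad W₁ W₂ 1 M (fP r c₀ σ lam Z)

/-- [X7] The average of a product for general weights (from `S_X2`, `S_X4`, `S_X5`, `S_X6`).
PROOF. `quad` is linear in the function (`S_W5b`): by `S_X6` the difference is `quad W₁ W₂ 1 M g`
with `g N = fP N - psiR 1 * isq N`. By `S_X5` it is `≤ C₁ C₂ ∑_{N ≤ x₁ x₂ odd} d(N)^3 / √N |g N|`;
for `N ≤ Z^(1-η)` a square `g N = 0` (`S_X2`, `3 N ≤ Z` for `Z` large), for `N` a nonsquare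
`g N = fP N`, so the sum is `≤ ε' Z` by `S_X4`. -/
def S_X7 : Prop :=
  ∀ lam : ℝ, 1 ≤ lam → ∀ η : ℝ, 0 < η → η < 1 → ∀ ε' : ℝ, 0 < ε' → ∃ Z₀ : ℝ, ∀ Z : ℝ, Z₀ ≤ Z →
    ∀ r ∈ ({1, 3, 5, 7} : Finset ℕ), ∀ c₀ : ℕ, (c₀ = 1 ∨ c₀ = 2) → ∀ σ : ℤ, (σ = 1 ∨ σ = -1) →
    ∀ (W₁ W₂ : ℕ → ℕ → ℝ) (C₁ C₂ x₁ x₂ : ℝ) (M : ℕ), (∀ l n, |W₁ l n| ≤ C₁) →
    (∀ l n, |W₂ l n| ≤ C₂) → 0 ≤ x₁ → 0 ≤ x₂ → x₁ * x₂ ≤ Z ^ (1 - η) →
    (∀ l n : ℕ, x₁ < (l : ℝ) * n → W₁ l n = 0) →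
    (∀ l n : ℕ, x₂ < (l : ℝ) * n → W₂ l n = 0) →
    |psiR (fun p => p % 8 = r) lam Z (fun p => LW W₁ σ M (c₀ * p) * LW W₂ σ M (c₀ * p)) -
      psiR (fun p => p % 8 = r) lam Z (fun _ => 1) * quad W₁ W₂ 1 M isq| ≤ C₁ * C₂ * (ε' * Z)

end Pool.Agent.MP0016c7.PC
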