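import Mathlib
import Pool.Agent.Lib.MP_0016c7_nt.PC.X.StmX

set_option autoImplicit false

/-!
Block [X] (exact moments over the primes of a class modulo `8`), second part: from general weights
to the processes `ytil`. Statements, with complete proofs in the comments.
-/

open Finset MeasureTheory Filter Topology
open scoped Real ContDiff

namespace Pool.Agent.MP0016c7.PC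

open Pool.Agent.MP0016c7.Rz
open Pool.Agent.BVall (OmL)

/-- The weight of the constant process `1`. -/
noncomputable def W1 (l n : ℕ) : ℝ := if l = 1 ∧ n = 1 then 1 else 0

/-- [X8] The second moment over primes in the scale `Z ≥ X`. PROOF. `ytil_trunc` (`Rz/Sm1.lean`)
for both profiles (constants independent of `d`): with `y_i = ytil ..`, `t_i = TT ..`
(`TT a₀ σ ρ h X θ δ d Y = LW (Wt a₀ ρ h X θ δ Y) σ ⌊X ^ 2⌋₊ d` by `rfl`),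
`|y₁ y₂ - t₁ t₂| ≤ 2 X^20 X^(-30)`, so the error is `≤ 2 X^(-10) * C Z` (third claim of `S_X1`:
`psiR 1 ≤ C Z`). By `lipW_Wt` (`Rz/LipWt.lean`) `|Wt| ≤ C_i`; `Wt .. Y l n = 0` if
`X^(Y + θ + 2 δ) < l n` (then `l, n ≥ 1`, `log l + log n > (Y + θ + 2 δ) log X` and
`Real.smoothTransition` is `1` at arguments `≥ 1`). Now `S_X7` with `x_i = X^(Y_i + θ_i + 2 δ)`,
`x₁ x₂ ≤ Z^(1-η)` by the hypothesis (take logarithms). By `JF_quadD` (`isq` is literally the function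
there) `quad .. isq = CD2 + O(ε)`; by `S_X3` `psiR 1 = SO / 4 + O(ε Z)`; `|CD2| ≤ B` (`S_Xc`),
`SO ≤ C Z` (`S_X1`). Everything is uniform in `Z ≥ X ≥ X₀` (for the `σ`: finitely many values; the
theorem `ytil_trunc` depends on `σ`, take the maximum of the two constants; same for `r`). -/
def S_X8 : Prop :=
  ∀ lam : ℝ, 1 ≤ lam → ∀ (θ₁ θ₂ δ : ℝ), 0 < θ₁ → 0 < θ₂ → 0 < δ → δ ≤ 1 / 4 →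
  θ₁ + 3 * δ < 1 / 2 → θ₂ + 3 * δ < 1 / 2 → ∀ η : ℝ, 0 < η → η < 1 →
  ∀ r ∈ ({1, 3, 5, 7} : Finset ℕ), ∀ c₀ : ℕ, (c₀ = 1 ∨ c₀ = 2) → ∀ σ : ℤ, (σ = 1 ∨ σ = -1) →
  ∀ a₀ : ℝ, (a₀ = 0 ∨ a₀ = 1) →
  ∀ (ρ₁ ρ₂ h₁ h₂ : ℝ → ℝ), Bump ρ₁ (-(δ / 2)) (δ / 2) → Bump ρ₂ (-(δ / 2)) (δ / 2) →
  Bump h₁ 0 θ₁ → Bump h₂ 0 θ₂ → ∀ ε' : ℝ, 0 < ε' → ∃ X₀ : ℝ, ∀ X : ℝ, X₀ ≤ X →
    ∀ Z : ℝ, X ≤ Z → ∀ Y₁ ∈ Set.Icc (-1 : ℝ) (1 / 2 + δ), ∀ Y₂ ∈ Set.Icc (-1 : ℝ) (1 / 2 + δ),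
    (Y₁ + θ₁ + 2 * δ + (Y₂ + θ₂ + 2 * δ)) * Real.log X ≤ (1 - η) * Real.log Z →
    |psiR (fun p => p % 8 = r) lam Z
        (fun p => ytil a₀ σ ρ₁ h₁ X (c₀ * p) Y₁ * ytil a₀ σ ρ₂ h₂ X (c₀ * p) Y₂) -
      SO lam Z / 4 * CD2 ρ₁ ρ₂ h₁ h₂ Y₁ Y₂| ≤ ε' * Z

/-- [X9] The first moment over primes in the scale `Z ≥ X`. PROOF. As `S_X8`, with the second
weight `W1` (`C₂ = 1`, `x₂ = 1`): `LW W1 σ M d = 1` for `M ≥ 1` (only `n = l = 1`, `μ(1) = 1`,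
`jr k 1 = 1`). Here `psiR 1` and `quad .. isq` stay as they are. -/
def S_X9 : Prop :=
  ∀ lam : ℝ, 1 ≤ lam → ∀ (θ δ : ℝ), 0 < θ → 0 < δ → δ ≤ 1 / 4 → θ + 3 * δ < 1 / 2 →
  ∀ η : ℝ, 0 < η → η < 1 →
  ∀ r ∈ ({1, 3, 5, 7} : Finset ℕ), ∀ c₀ : ℕ, (c₀ = 1 ∨ c₀ = 2) → ∀ σ : ℤ, (σ = 1 ∨ σ = -1) →
  ∀ a₀ : ℝ, (a₀ = 0 ∨ a₀ = 1) → ∀ (ρ h : ℝ → ℝ), Bump ρ (-(δ / 2)) (δ / 2) → Bump h 0 θ →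
  ∀ ε' : ℝ, 0 < ε' → ∃ X₀ : ℝ, ∀ X : ℝ, X₀ ≤ X →
    ∀ Z : ℝ, X ≤ Z → ∀ Y ∈ Set.Icc (-1 : ℝ) (1 / 2 + δ),
    (Y + θ + 2 * δ) * Real.log X ≤ (1 - η) * Real.log Z →
    |psiR (fun p => p % 8 = r) lam Z (fun p => ytil a₀ σ ρ h X (c₀ * p) Y) -
      psiR (fun p => p % 8 = r) lam Z (fun _ => 1) *
        quad (Wt a₀ ρ h X θ δ Y) W1 1 ⌊X ^ 2⌋₊ isq| ≤ ε' * Z

/-- [Xc] The limit covariance. PROOF. `|HH h v| ≤ ∫ |h|`,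
`0 ≤ max (min (Y₁ - x) (Y₂ - y)) 0 ≤ |Y₁ - x| ≤ 2` on the support of `ρ₁`, so the inner integrand is
at most `|ρ₁ x| |ρ₂ y| (∫|h₁| ∫|h₂| + 2 |∫ h₁ h₂|)` (`norm_integral_le_of_norm_le` twice).
Second claim: on the support of `ρ₁ x ρ₂ y` the term `max (Y₁ - x + (Y₂ - y) - 1) 0` vanishes, so the
integrands are equal. Fourth claim: for `ρ₂ y ≠ 0`: `Y₂ - y < 0` (`Y₂ = -(3 δ / 4)`,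
`y > -(δ / 2)`), so `max (min ..) 0 = 0`, and `y - Y₂ < 5 δ / 4`, so `HH h₂ (y - Y₂) = ∫ h₂ = 1` (the
support of `h₂` is in `(5 δ / 4, θ₂)`); the integral over `y` of `ρ₁ x ρ₂ y HH h₁ (x - Y₁)` is
`ρ₁ x HH h₁ (x - Y₁)`. -/
def S_Xc : Prop :=
  ∀ (δ θ₁ θ₂ : ℝ), 0 < δ → δ ≤ 1 / 4 → ∀ (ρ₁ ρ₂ h₁ h₂ : ℝ → ℝ), Bump ρ₁ (-(δ / 2)) (δ / 2) →
  Bump ρ₂ (-(δ / 2)) (δ / 2) → Bump h₁ 0 θ₁ → Bump h₂ 0 θ₂ →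
  (∃ B : ℝ, 0 < B ∧ ∀ Y₁ ∈ Set.Icc (-1 : ℝ) (1 / 2 + δ), ∀ Y₂ ∈ Set.Icc (-1 : ℝ) (1 / 2 + δ),
    |CD2 ρ₁ ρ₂ h₁ h₂ Y₁ Y₂| ≤ B) ∧
  (∃ B : ℝ, 0 < B ∧ ∀ Y₁ : ℝ, |∫ y, ρ₁ y * HH h₁ (y - Y₁)| ≤ B) ∧
  (∀ Y₁ Y₂ : ℝ, Y₁ + Y₂ + δ ≤ 1 → CC2 ρ₁ ρ₂ h₁ h₂ Y₁ Y₂ = CD2 ρ₁ ρ₂ h₁ h₂ Y₁ Y₂) ∧
  ((∫ y, ρ₂ y) = 1 → (∫ t, h₂ t) = 1 → Bump h₂ (5 * δ / 4) θ₂ →
    (∀ Y₁ : ℝ, CD2 ρ₁ ρ₂ h₁ h₂ Y₁ (-(3 * δ / 4)) = ∫ y, ρ₁ y * HH h₁ (y - Y₁)) ∧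
    (∫ y, ρ₂ y * HH h₂ (y - (-(3 * δ / 4)))) = 1)

/-- [Xd] The total mass has the order `Z`. PROOF. `psiXL_lower`, `psiXL_approx`
(`BV/SmallCor.lean`), and `S_X3`. -/
def S_Xd : Prop :=
  ∀ lam : ℝ, 1 ≤ lam → ∀ r ∈ ({1, 3, 5, 7} : Finset ℕ), ∃ c Z₀ : ℝ, 0 < c ∧ ∀ Z : ℝ, Z₀ ≤ Z →
    c * Z ≤ SO lam Z ∧ c * Z ≤ psiR (fun p => p % 8 = r) lam Z (fun _ => 1)

/-- [X10] The diagonal mean value. PROOF. Use the scale `Z = X ^ 7` with any `lam`, `r`, `c₀`, `σ`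
(say `3, 1, 1, 1`). Choose bumps `ρ₂` (in `(-(δ/2), δ/2)`) and `h₂` (in `(5 δ / 4, 2 δ)`) with
integral `1`, `θ₂ = 2 δ`, `Y₂ = -(3 δ / 4)`; `y_2 := ytil a₀ σ ρ₂ h₂ X (c₀ p) Y₂` satisfies
`|y_2 - 1| ≤ ε` for all `p` (`ytil_det` in `Rz/Ker5.lean` and `S_Xc`). All heights are admissible
in `S_X8`, `S_X9` with `η = 1 / 2` (`2 + 6 δ ≤ 7 / 2`). With `y_1 = ytil .. ρ h .. Y`: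
`psiR (y_1 y_2) = SO / 4 * CD2 + o(Z)`, `CD2 ρ ρ₂ h h₂ Y Y₂ = m := ∫ ρ HH h (y - Y)` (`S_Xc`);
`psiR (y_1) = psiR 1 * D + o(Z)`, `D = quad (Wt ..) W1 1 ⌊X ^ 2⌋₊ isq` (`S_X9`);
`|psiR (y_1 y_2) - psiR (y_1)| ≤ ε psiR (|y_1|) ≤ ε (psiR 1 + psiR (y_1²)) ≤ ε C Z` (`S_X8` with both
profiles equal, `S_Xc`, `S_X1`); `psiR 1 = SO / 4 + o(Z)` (`S_X3`), `|m| ≤ B`. Hence
`|psiR 1 (D - m)| ≤ ε C Z`, and `psiR 1 ≥ c Z` (`S_Xd`). -/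
def S_X10 : Prop :=
  ∀ (θ δ : ℝ), 0 < θ → 0 < δ → δ ≤ 1 / 100 → θ + 3 * δ < 1 / 2 →
  ∀ a₀ : ℝ, (a₀ = 0 ∨ a₀ = 1) → ∀ (ρ h : ℝ → ℝ), Bump ρ (-(δ / 2)) (δ / 2) → Bump h 0 θ →
  ∀ ε : ℝ, 0 < ε → ∃ X₀ : ℝ, ∀ X : ℝ, X₀ ≤ X → ∀ Y ∈ Set.Icc (-1 : ℝ) (1 / 2 + δ),
    |quad (Wt a₀ ρ h X θ δ Y) W1 1 ⌊X ^ 2⌋₊ isq - ∫ y, ρ y * HH h (y - Y)| ≤ ε

end Pool.Agent.MP0016c7.PC
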