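import Mathlib
import Pool.Agent.Lib.MP_0016c7_nt.PC.X.StmX2
import Pool.Agent.Lib.MP_0016c7_nt.Rz.TestR
import Pool.Agent.Lib.MP_0016c7_nt.Rz.Ker5
import Pool.Agent.Lib.MP_0da313_nt.BV.SmallCor

set_option autoImplicit false

/-!
Block [X], piece X10: the diagonal mean value.
-/

open Finset MeasureTheory Filter Topology
open scoped Real ContDiff

namespace Pool.Agent.MP0016c7.PC

open Pool.Agent.MP0016c7.Rz
open Pool.Agent.BVall (OmL OmL_nonneg)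

private lemma x10_h (δ : ℝ) (hδ : 0 < δ) :
    ∃ h : ℝ → ℝ, Bump h (5 * δ / 4) (2 * δ) ∧ ∫ t, h t = 1 := by
  obtain ⟨ρ, hρ, -, -, hi⟩ := exists_rho (δ / 2) (by positivity)
  refine ⟨fun t => ρ (t - 13 * δ / 8), ⟨hρ.smooth.comp (by fun_prop), fun t ht => ?_⟩, ?_⟩
  · have := hρ.supp (t - 13 * δ / 8) ht
    constructor <;> linarith [this.1, this.2]
  · rw [integral_sub_right_eq_self ρ (13 * δ / 8)]
    exact hi

open Classical in
/-- Monotonicity of the prime sums. -/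
theorem psiR_le (R : ℕ → Prop) (lam : ℝ) {Z : ℝ} (hZ : 0 ≤ Z) {f g : ℕ → ℝ}
    (h : ∀ p, f p ≤ g p) : psiR R lam Z f ≤ psiR R lam Z g := by
  unfold psiR
  refine sum_le_sum fun p hp => mul_le_mul_of_nonneg_left (h p) ?_
  have hp1 : 1 ≤ p := (mem_Icc.1 (mem_filter.1 hp).1).1
  exact mul_nonneg (Real.log_nonneg (by exact_mod_cast hp1)) (OmL_nonneg lam hZ p)

open Classical in
theorem psiR_add (R : ℕ → Prop) (lam Z : ℝ) (f g : ℕ → ℝ) :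
    psiR R lam Z (fun p => f p + g p) = psiR R lam Z f + psiR R lam Z g := by
  unfold psiR
  rw [← sum_add_distrib]
  exact sum_congr rfl fun p _ => by ring

open Classical in
theorem psiR_smul (R : ℕ → Prop) (lam Z c : ℝ) (g : ℕ → ℝ) :
    psiR R lam Z (fun p => c * g p) = c * psiR R lam Z g := by
  unfold psiR
  rw [mul_sum]
  exact sum_congr rfl fun p _ => by ring

theorem psiR_sub_abs (R : ℕ → Prop) (lam : ℝ) {Z : ℝ} (hZ : 0 ≤ Z) {f g k : ℕ → ℝ}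
    (h : ∀ p, |f p - g p| ≤ k p) :
    |psiR R lam Z f - psiR R lam Z g| ≤ psiR R lam Z k := by
  have h1 : psiR R lam Z f - psiR R lam Z g = psiR R lam Z (fun p => f p - g p) := by
    have := psiR_add R lam Z (fun p => f p - g p) g
    simp only [sub_add_cancel] at this
    linarith
  rw [h1, abs_le]
  constructor
  · rw [neg_le_iff_add_nonneg, ← psiR_add]
    have := psiR_le R lam hZ (f := fun _ => 0) (g := fun p => f p - g p + k p)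
      (fun p => by have := (abs_le.1 (h p)).1; linarith)
    have h0 : psiR R lam Z (fun _ => 0) = 0 := by unfold psiR; simp
    linarith
  · exact psiR_le R lam hZ fun p => (abs_le.1 (h p)).2

open Classical in
theorem psiR_one_le (R : ℕ → Prop) (lam : ℝ) {Z : ℝ} (hZ : 0 ≤ Z) :
    psiR R lam Z (fun _ => 1) ≤
      ∑ p ∈ (Icc 1 ⌊3 * Z⌋₊).filter (fun p => p.Prime), Real.log p * OmL lam Z p := by
  unfold psiR
  have h1 : ∀ p ∈ (Icc 1 ⌊3 * Z⌋₊).filter (fun p => p.Prime ∧ R p),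
      Real.log p * OmL lam Z p * 1 = Real.log p * OmL lam Z p := fun p _ => mul_one _
  rw [sum_congr rfl h1]
  refine sum_le_sum_of_subset_of_nonneg ?_ fun p hp _ => ?_
  · intro p hp
    rw [mem_filter] at hp ⊢
    exact ⟨hp.1, hp.2.1⟩
  · have hp1 : 1 ≤ p := (mem_Icc.1 (mem_filter.1 hp).1).1
    exact mul_nonneg (Real.log_nonneg (by exact_mod_cast hp1)) (OmL_nonneg lam hZ p)

theorem p_X10 (h1 : S_X1) (h3 : S_X3) (h8 : S_X8) (h9 : S_X9) (hc : S_Xc) (hd : S_Xd) : S_X10 := by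
  intro θ δ hθ hδ hδ1 hθδ a₀ ha₀ ρ h hρ hh ε hε
  obtain ⟨ρ₂, hρ₂, -, -, hiρ⟩ := exists_rho δ hδ
  obtain ⟨h₂, hh₂, hih⟩ := x10_h δ hδ
  have hh₂' : Bump h₂ 0 (2 * δ) := ⟨hh₂.smooth, fun t ht => ⟨by
    have := (hh₂.supp t ht).1; linarith, (hh₂.supp t ht).2⟩⟩
  have hr : (1 : ℕ) ∈ ({1, 3, 5, 7} : Finset ℕ) := by decide
  obtain ⟨-, ⟨B, hB, hBm⟩, -, h4⟩ := hc δ θ (2 * δ) hδ (by linarith) ρ ρ₂ h h₂ hρ hρ₂ hh hh₂'
  obtain ⟨h4a, h4b⟩ := h4 hiρ hih hh₂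
  obtain ⟨⟨B₁, hB₁, hB₁m⟩, -, -, -⟩ := hc δ θ θ hδ (by linarith) ρ ρ h h hρ hρ hh hh
  obtain ⟨C, Z₁, hC, hX1⟩ := h1 3 (by norm_num)
  obtain ⟨c, Z₂, hc0, hXd⟩ := hd 3 (by norm_num) 1 hr
  set K : ℝ := C + (C * B₁ / 4 + 1) with hK
  have hK0 : 0 < K := by positivity
  have hcε : 0 < c * ε / 6 := by positivity
  obtain ⟨Z₃, hX3⟩ := h3 3 (by norm_num) 1 hr (c * ε / 6 / B) (by positivity)
  obtain ⟨X₁, hX8⟩ := h8 3 (by norm_num) θ (2 * δ) δ hθ (by positivity) hδ (by linarith) hθδ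
    (by linarith) (1 / 2) (by norm_num) (by norm_num) 1 hr 1 (Or.inl rfl) 1 (Or.inl rfl) a₀ ha₀
    ρ ρ₂ h h₂ hρ hρ₂ hh hh₂' (c * ε / 6) hcε
  obtain ⟨X₂, hX8'⟩ := h8 3 (by norm_num) θ θ δ hθ hθ hδ (by linarith) hθδ
    hθδ (1 / 2) (by norm_num) (by norm_num) 1 hr 1 (Or.inl rfl) 1 (Or.inl rfl) a₀ ha₀
    ρ ρ h h hρ hρ hh hh 1 one_pos
  obtain ⟨X₃, hX9⟩ := h9 3 (by norm_num) θ δ hθ hδ (by linarith) hθδ
    (1 / 2) (by norm_num) (by norm_num) 1 hr 1 (Or.inl rfl) 1 (Or.inl rfl) a₀ ha₀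
    ρ h hρ hh (c * ε / 6) hcε
  obtain ⟨X₄, hdet⟩ := ytil_det hδ (by positivity : 0 < 2 * δ) hρ₂ hh₂' a₀ ha₀ 1
    (c * ε / 6 / K) (by positivity)
  refine ⟨max (max (max Z₁ Z₂) (max Z₃ X₁)) (max (max X₂ X₃) (max X₄ 1)), fun X hX Y hY => ?_⟩
  simp only [max_le_iff] at hX
  obtain ⟨⟨⟨hXZ₁, hXZ₂⟩, hXZ₃, hXX₁⟩, ⟨hXX₂, hXX₃⟩, hXX₄, hXone⟩ := hX
  set Z : ℝ := X ^ 7 with hZ
  have hXZ : X ≤ Z := by
    rw [hZ]
    calc X = X ^ 1 := (pow_one X).symm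
      _ ≤ X ^ 7 := pow_le_pow_right₀ hXone (by norm_num)
  have hX0 : 0 < X := by linarith
  have hZ0 : 0 < Z := by linarith
  have hlog : Real.log Z = 7 * Real.log X := by rw [hZ, Real.log_pow]; norm_num
  have hL0 : 0 ≤ Real.log X := Real.log_nonneg hXone
  obtain ⟨-, ⟨hS0, hSC⟩, hPC⟩ := hX1 Z (by linarith)
  obtain ⟨-, hmass⟩ := hXd Z (by linarith)
  set P : (ℕ → ℝ) → ℝ := psiR (fun p => p % 8 = 1) 3 Z with hP
  set D : ℝ := quad (Wt a₀ ρ h X θ δ Y) W1 1 ⌊X ^ 2⌋₊ isq with hD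
  set m : ℝ := ∫ y, ρ y * HH h (y - Y) with hm
  set y₁ : ℕ → ℝ := fun p => ytil a₀ 1 ρ h X (1 * p) Y with hy₁
  set y₂ : ℕ → ℝ := fun p => ytil a₀ 1 ρ₂ h₂ X (1 * p) (-(3 * δ / 4)) with hy₂
  have hY₂ : -(3 * δ / 4) ∈ Set.Icc (-1 : ℝ) (1 / 2 + δ) := ⟨by linarith, by linarith⟩
  have e8 := hX8 X hXX₁ Z hXZ Y hY _ hY₂ (by
    rw [hlog]
    nlinarith [hY.2])
  have e8' := hX8' X hXX₂ Z hXZ Y hY Y hY (by
    rw [hlog]
    nlinarith [hY.2])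
  have e9 := hX9 X hXX₃ Z hXZ Y hY (by
    rw [hlog]
    nlinarith [hY.2])
  have e3 := hX3 Z (by linarith)
  rw [h4a Y] at e8
  change |P (fun p => y₁ p * y₂ p) - SO 3 Z / 4 * m| ≤ c * ε / 6 * Z at e8
  change |P (fun p => y₁ p * y₁ p) - SO 3 Z / 4 * CD2 ρ ρ h h Y Y| ≤ 1 * Z at e8'
  change |P y₁ - P (fun _ => 1) * D| ≤ c * ε / 6 * Z at e9
  change |P (fun _ => 1) - SO 3 Z / 4| ≤ c * ε / 6 / B * Z at e3
  change c * Z ≤ P (fun _ => 1) at hmass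
  have hdet' : ∀ p, |y₂ p - 1| ≤ c * ε / 6 / K := by
    intro p
    have := hdet X hXX₄ (1 * p) (-(3 * δ / 4)) ⟨by linarith, le_refl _⟩
    rw [h4b] at this
    exact this
  have hP1 : P (fun _ => 1) ≤ C * Z := (psiR_one_le _ 3 hZ0.le).trans hPC
  have hP2 : P (fun p => y₁ p * y₁ p) ≤ (C * B₁ / 4 + 1) * Z := by
    have a1 := (abs_le.1 e8').2
    have a2 := (abs_le.1 (hB₁m Y hY Y hY)).2
    have a3 : SO 3 Z / 4 * CD2 ρ ρ h h Y Y ≤ C * Z / 4 * B₁ := by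
      calc SO 3 Z / 4 * CD2 ρ ρ h h Y Y ≤ SO 3 Z / 4 * B₁ :=
            mul_le_mul_of_nonneg_left a2 (by linarith)
        _ ≤ C * Z / 4 * B₁ := mul_le_mul_of_nonneg_right (by linarith) hB₁.le
    have a4 : (C * B₁ / 4 + 1) * Z = C * Z / 4 * B₁ + 1 * Z := by ring
    linarith
  have hdiff : |P y₁ - P (fun p => y₁ p * y₂ p)| ≤ c * ε / 6 * Z := by
    have b1 : |P y₁ - P (fun p => y₁ p * y₂ p)| ≤
        P (fun p => c * ε / 6 / K * (1 + y₁ p * y₁ p)) := by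
      refine psiR_sub_abs _ 3 hZ0.le fun p => ?_
      have b2 : y₁ p - y₁ p * y₂ p = -(y₁ p * (y₂ p - 1)) := by ring
      rw [b2, abs_neg, abs_mul, mul_comm]
      have b3 := hdet' p
      have b4 : |y₁ p| ≤ 1 + y₁ p * y₁ p := by
        have := abs_mul_abs_self (y₁ p)
        nlinarith [sq_nonneg (|y₁ p| - 1), abs_nonneg (y₁ p)]
      exact mul_le_mul b3 b4 (abs_nonneg _) (by positivity)
    have b5 : P (fun p => c * ε / 6 / K * (1 + y₁ p * y₁ p)) =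
        c * ε / 6 / K * (P (fun _ => 1) + P (fun p => y₁ p * y₁ p)) := by
      rw [hP, psiR_smul, psiR_add]
    have b6 : P (fun _ => 1) + P (fun p => y₁ p * y₁ p) ≤ K * Z := by
      rw [hK]
      linarith
    calc |P y₁ - P (fun p => y₁ p * y₂ p)| ≤
          c * ε / 6 / K * (P (fun _ => 1) + P (fun p => y₁ p * y₁ p)) := b1.trans_eq b5
      _ ≤ c * ε / 6 / K * (K * Z) := mul_le_mul_of_nonneg_left b6 (by positivity)
      _ = c * ε / 6 * Z := by field_simp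
  have hmB : |(P (fun _ => 1) - SO 3 Z / 4) * m| ≤ c * ε / 6 * Z := by
    rw [abs_mul]
    calc |P (fun _ => 1) - SO 3 Z / 4| * |m| ≤ c * ε / 6 / B * Z * B :=
          mul_le_mul e3 (hBm Y) (abs_nonneg _) (by positivity)
      _ = c * ε / 6 * Z := by field_simp
  have hfin : |P (fun _ => 1) * (D - m)| ≤ 4 * (c * ε / 6 * Z) := by
    have b7 : P (fun _ => 1) * (D - m) = -(P y₁ - P (fun _ => 1) * D) +
        (P y₁ - P (fun p => y₁ p * y₂ p)) + (P (fun p => y₁ p * y₂ p) - SO 3 Z / 4 * m) -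
        (P (fun _ => 1) - SO 3 Z / 4) * m := by ring
    rw [b7, abs_le]
    have c1 := abs_le.1 e9
    have c2 := abs_le.1 hdiff
    have c3 := abs_le.1 e8
    have c4 := abs_le.1 hmB
    constructor <;> linarith [c1.1, c1.2, c2.1, c2.2, c3.1, c3.2, c4.1, c4.2]
  rw [abs_mul, abs_of_nonneg (le_trans (by positivity) hmass)] at hfin
  have b8 : c * Z * |D - m| ≤ 4 * (c * ε / 6 * Z) :=
    (mul_le_mul_of_nonneg_right hmass (abs_nonneg _)).trans hfin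
  have b9 : 0 < c * Z := by positivity
  have b10 : c * Z * |D - m| ≤ c * Z * ε := by
    refine b8.trans ?_
    have : 0 < c * Z * ε := by positivity
    nlinarith
  exact le_of_mul_le_mul_left b10 b9

end Pool.Agent.MP0016c7.PC
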