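import Mathlib
import Pool.Agent.Lib.MP_0016c7_nt.PC.X.X10

set_option autoImplicit false

/-!
Block [X]: assembly of `JF_covP`, `JF_fmP`, `JF_zmP` from the pieces.
-/

open Finset MeasureTheory Filter Topology
open scoped Real ContDiff

namespace Pool.Agent.MP0016c7.PC

open Pool.Agent.MP0016c7.Rz
open Pool.Agent.BVall (OmL)

private lemma xa_exp {lam : ℝ} (hlam : 3 ≤ lam) {X : ℝ} (hX : 0 ≤ X) :
    X ≤ X * Real.exp (1 / lam) ∧ X * Real.exp (1 / lam) ≤ 3 * X := by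
  have hl : 0 < lam := by linarith
  have h1 : 1 ≤ Real.exp (1 / lam) := Real.one_le_exp (by positivity)
  have h2 : Real.exp (1 / lam) ≤ Real.exp 1 := Real.exp_le_exp.2 (by
    rw [div_le_one hl]; linarith)
  have h3 := Real.exp_one_lt_d9
  constructor <;> nlinarith

theorem x_zmP (h3 : S_X3) : JF_zmP := by
  intro lam hlam r hr ε' hε
  obtain ⟨Z₀, hZ₀⟩ := h3 lam (by linarith) r hr (ε' / 3) (by positivity)
  refine ⟨max Z₀ 1, fun X hX => ?_⟩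
  have hX1 : 1 ≤ X := (le_max_right _ _).trans hX
  obtain ⟨a1, a2⟩ := xa_exp hlam (by linarith : 0 ≤ X)
  refine (hZ₀ _ (((le_max_left _ _).trans hX).trans a1)).trans ?_
  nlinarith

theorem x_covP (h8 : S_X8) (hc : S_Xc) : JF_covP := by
  intro lam hlam θ₁ θ₂ δ hθ₁ hθ₂ hδ hδ1 hθδ₁ hθδ₂ r hr c₀ hc₀ σ hσ a₀ ha₀ ρ₁ ρ₂ h₁ h₂ hρ₁ hρ₂ hh₁ hh₂
    ε' hε
  obtain ⟨X₀, hX₀⟩ := h8 lam (by linarith) θ₁ θ₂ δ hθ₁ hθ₂ hδ (by linarith) hθδ₁ hθδ₂ δ hδ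
    (by linarith) r hr c₀ hc₀ σ hσ a₀ ha₀ ρ₁ ρ₂ h₁ h₂ hρ₁ hρ₂ hh₁ hh₂ (ε' / 3) (by positivity)
  obtain ⟨-, -, hcc, -⟩ := hc δ θ₁ θ₂ hδ (by linarith) ρ₁ ρ₂ h₁ h₂ hρ₁ hρ₂ hh₁ hh₂
  refine ⟨max X₀ 1, fun X hX Y₁ hY₁ Y₂ hY₂ hY => ?_⟩
  have hX1 : 1 ≤ X := (le_max_right _ _).trans hX
  have hX0 : 0 < X := by linarith
  obtain ⟨a1, a2⟩ := xa_exp hlam hX0.le
  have hlog : Real.log X ≤ Real.log (X * Real.exp (1 / lam)) := Real.log_le_log hX0 a1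
  have hL0 : 0 ≤ Real.log X := Real.log_nonneg hX1
  have h := hX₀ X ((le_max_left _ _).trans hX) _ a1 Y₁ hY₁ Y₂ hY₂ (by
    calc (Y₁ + θ₁ + 2 * δ + (Y₂ + θ₂ + 2 * δ)) * Real.log X ≤ (1 - δ) * Real.log X :=
          mul_le_mul_of_nonneg_right (by linarith) hL0
      _ ≤ (1 - δ) * Real.log (X * Real.exp (1 / lam)) :=
          mul_le_mul_of_nonneg_left hlog (by linarith))
  rw [hcc Y₁ Y₂ (by linarith)]
  refine h.trans ?_
  nlinarith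

theorem x_fmP (h1 : S_X1) (h3 : S_X3) (h9 : S_X9) (hc : S_Xc) (h10 : S_X10) : JF_fmP := by
  intro lam hlam θ δ hθ hδ hδ1 hθδ r hr c₀ hc₀ σ hσ a₀ ha₀ ρ h hρ hh ε' hε
  obtain ⟨-, ⟨B, hB, hBm⟩, -, -⟩ := hc δ θ θ hδ (by linarith) ρ ρ h h hρ hρ hh hh
  obtain ⟨C, Z₁, hC, hX1⟩ := h1 lam (by linarith)
  obtain ⟨X₁, hX9⟩ := h9 lam (by linarith) θ δ hθ hδ (by linarith) (by linarith)
    (3 * δ) (by linarith) (by linarith) r hr c₀ hc₀ σ hσ a₀ ha₀ ρ h hρ hh (ε' / 9) (by positivity)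
  obtain ⟨Z₂, hX3⟩ := h3 lam (by linarith) r hr (ε' / 9 / B) (by positivity)
  obtain ⟨X₂, hX10⟩ := h10 θ δ hθ hδ hδ1 (by linarith) a₀ ha₀ ρ h hρ hh (ε' / 9 / C)
    (by positivity)
  refine ⟨max (max (max Z₁ Z₂) (max X₁ X₂)) 1, fun X hX Y hY => ?_⟩
  simp only [max_le_iff] at hX
  obtain ⟨⟨⟨hXZ₁, hXZ₂⟩, hXX₁, hXX₂⟩, hXone⟩ := hX
  have hX0 : 0 < X := by linarith
  obtain ⟨a1, a2⟩ := xa_exp hlam hX0.le
  set Z : ℝ := X * Real.exp (1 / lam) with hZ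
  have hZ0 : 0 < Z := by linarith
  have hlog : Real.log X ≤ Real.log Z := Real.log_le_log hX0 a1
  have hL0 : 0 ≤ Real.log X := Real.log_nonneg hXone
  obtain ⟨-, ⟨hS0, hSC⟩, hPC⟩ := hX1 Z (by linarith)
  have e9 := hX9 X hXX₁ Z a1 Y hY (by
    calc (Y + θ + 2 * δ) * Real.log X ≤ (1 - 3 * δ) * Real.log X :=
          mul_le_mul_of_nonneg_right (by linarith [hY.2]) hL0
      _ ≤ (1 - 3 * δ) * Real.log Z := mul_le_mul_of_nonneg_left hlog (by linarith))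
  have e3 := hX3 Z (by linarith)
  have e10 := hX10 X hXX₂ Y hY
  set P : (ℕ → ℝ) → ℝ := psiR (fun p => p % 8 = r) lam Z with hP
  set D : ℝ := quad (Wt a₀ ρ h X θ δ Y) W1 1 ⌊X ^ 2⌋₊ isq with hD
  set m : ℝ := ∫ y, ρ y * HH h (y - Y) with hm
  have hP1 : P (fun _ => 1) ≤ C * Z := (psiR_one_le _ lam hZ0.le).trans hPC
  have hP0 : 0 ≤ P (fun _ => 1) := by
    have := psiR_le (fun p => p % 8 = r) lam hZ0.le (f := fun _ => 0) (g := fun _ => 1)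
      (fun _ => zero_le_one)
    have h0 : psiR (fun p => p % 8 = r) lam Z (fun _ => 0) = 0 := by unfold psiR; simp
    rw [h0] at this
    exact this
  have b1 : |P (fun _ => 1) * (D - m)| ≤ ε' / 9 * Z := by
    rw [abs_mul, abs_of_nonneg hP0]
    calc P (fun _ => 1) * |D - m| ≤ C * Z * (ε' / 9 / C) :=
          mul_le_mul hP1 e10 (abs_nonneg _) (by positivity)
      _ = ε' / 9 * Z := by field_simp
  have b2 : |(P (fun _ => 1) - SO lam Z / 4) * m| ≤ ε' / 9 * Z := by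
    rw [abs_mul]
    calc |P (fun _ => 1) - SO lam Z / 4| * |m| ≤ ε' / 9 / B * Z * B :=
          mul_le_mul e3 (hBm Y) (abs_nonneg _) (by positivity)
      _ = ε' / 9 * Z := by field_simp
  have b3 : P (fun p => ytil a₀ σ ρ h X (c₀ * p) Y) - SO lam Z / 4 * m =
      (P (fun p => ytil a₀ σ ρ h X (c₀ * p) Y) - P (fun _ => 1) * D) +
        P (fun _ => 1) * (D - m) + (P (fun _ => 1) - SO lam Z / 4) * m := by ring
  rw [b3]
  have b4 := (abs_add_three (P (fun p => ytil a₀ σ ρ h X (c₀ * p) Y) - P (fun _ => 1) * D)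
    (P (fun _ => 1) * (D - m)) ((P (fun _ => 1) - SO lam Z / 4) * m))
  refine b4.trans ?_
  have b5 : ε' / 9 * Z + ε' / 9 * Z + ε' / 9 * Z ≤ ε' * X := by nlinarith
  linarith

end Pool.Agent.MP0016c7.PC
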