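import Mathlib
import Pool.Agent.Lib.MP_0016c7_nt.PC.X.StmX
import Pool.Agent.Lib.MP_89da58_nt.Bv

set_option autoImplicit false

/-!
[X1] Sizes of the window weights.
-/

open Finset MeasureTheory Filter Topology
open scoped Real ContDiff

namespace Pool.Agent.MP0016c7.PC

open Pool.Agent.MP0016c7.Rz
open Pool.Agent.BVall (OmL)
open Pool.Agent.MP89da58 (tri cX tri_nonneg tri_le_one cX_bounds)

private lemma x1_OmL_nonneg (lam : ℝ) {X : ℝ} (hX : 0 ≤ X) (n : ℕ) : 0 ≤ OmL lam X n :=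
  mul_nonneg (Real.rpow_nonneg (div_nonneg hX (Nat.cast_nonneg n)) _) (tri_nonneg _)

private lemma x1_OmL_le {lam : ℝ} (hlam : 1 ≤ lam) {X : ℝ} (hXp : 0 < X) (hX : 1 ≤ Real.log X)
    (n : ℕ) : OmL lam X n ≤ 8 := by
  obtain ⟨hc1, hc2⟩ := cX_bounds hX
  unfold OmL
  rcases Nat.eq_zero_or_pos n with h0 | hn
  · subst h0
    simp only [Nat.cast_zero, div_zero]
    rw [Real.zero_rpow (by linarith)]
    norm_num
  · have hn' : (0 : ℝ) < n := Nat.cast_pos.2 hn
    have hq : 0 < X / n := div_pos hXp hn'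
    by_cases ht : 1 ≤ |Real.log (n / X)|
    · have : tri (lam * Real.log (n / X)) = 0 := by
        apply max_eq_left
        rw [abs_mul, abs_of_nonneg (by linarith)]
        nlinarith only [hlam, ht]
      rw [this, mul_zero]
      norm_num
    · push Not at ht
      have h1 : Real.log (X / n) < 1 := by
        have : Real.log (X / n) = - Real.log (n / X) := by
          rw [← Real.log_inv, inv_div]
        rw [this]
        have := neg_abs_le (Real.log ((n : ℝ) / X))
        linarith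
      have h2 : (X / n) ^ cX X ≤ Real.exp 2 := by
        rw [Real.rpow_def_of_pos hq]
        apply Real.exp_le_exp.2
        rcases le_or_gt (Real.log (X / n)) 0 with h | h
        · nlinarith only [hc2, h1, hc1]
        · nlinarith only [hc2, h1, hc1]
      have h3 : Real.exp 2 ≤ 8 := by
        have h4 := Real.exp_one_lt_d9
        have h5 : Real.exp 2 = Real.exp 1 * Real.exp 1 := by rw [← Real.exp_add]; norm_num
        rw [h5]
        have h6 := Real.exp_pos 1
        nlinarith only [h4, h6]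
      calc (X / n) ^ cX X * tri (lam * Real.log (n / X)) ≤ (X / n) ^ cX X * 1 :=
            mul_le_mul_of_nonneg_left (tri_le_one _) (Real.rpow_nonneg hq.le _)
        _ ≤ 8 := by rw [mul_one]; exact h2.trans h3

private lemma x1_sum_le {lam Z : ℝ} (hlam : 1 ≤ lam) (hZ : 0 < Z) (hlog : 1 ≤ Real.log Z)
    (s : Finset ℕ) (f : ℕ → ℝ) (hf : ∀ n ∈ s, 0 ≤ f n) :
    ∑ n ∈ s, f n * OmL lam Z n ≤ 8 * ∑ n ∈ s, f n := by
  rw [Finset.mul_sum]
  refine Finset.sum_le_sum (fun n hn => ?_)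
  have := mul_le_mul_of_nonneg_left (x1_OmL_le hlam hZ hlog n) (hf n hn)
  linarith

theorem p_X1 : S_X1 := by
  intro lam hlam
  refine ⟨100, 3, by norm_num, ?_⟩
  intro Z hZ
  have hZ0 : 0 < Z := by linarith
  have hlog : 1 ≤ Real.log Z := by
    rw [Real.le_log_iff_exp_le hZ0]
    have := Real.exp_one_lt_d9
    linarith
  have h3Z : (0 : ℝ) ≤ 3 * Z := by linarith
  have hlog3 : Real.log 3 ≤ 2 := by
    have := Real.log_le_sub_one_of_pos (by norm_num : (0 : ℝ) < 3)
    linarith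
  have hsq : 0 ≤ √Z := Real.sqrt_nonneg Z
  refine ⟨?_, ⟨?_, ?_⟩, ?_⟩
  · have h1 := x1_sum_le hlam hZ0 hlog ((Icc 1 ⌊3 * Z⌋₊).filter (fun n => ¬ n.Prime))
      (fun n => ArithmeticFunction.vonMangoldt n) (fun n _ => ArithmeticFunction.vonMangoldt_nonneg)
    have h2 := Chebyshev.psi_sub_theta_eq_sum_not_prime (3 * Z)
    have h3 : Icc 1 ⌊3 * Z⌋₊ = Ioc 0 ⌊3 * Z⌋₊ := by
      ext x; simp only [Finset.mem_Icc, Finset.mem_Ioc]; omega
    rw [h3, ← h2] at h1
    have h4 := Chebyshev.psi_sub_theta_le (x := 3 * Z) (by linarith)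
    have h5 : √(3 * Z) ≤ 2 * √Z := by
      have h6 : √(3 * Z) ≤ √(2 ^ 2 * Z) := Real.sqrt_le_sqrt (by linarith)
      have h7 : √(2 ^ 2 * Z) = 2 * √Z := by
        rw [Real.sqrt_mul (by norm_num) Z, Real.sqrt_sq (by norm_num)]
      linarith
    have h8 : Real.log (3 * Z) ≤ 3 * Real.log Z := by
      rw [Real.log_mul (by norm_num) hZ0.ne']
      linarith
    have h9 : 0 ≤ Real.log (3 * Z) := Real.log_nonneg (by linarith)
    have h10 : 2 * √(3 * Z) * Real.log (3 * Z) ≤ 2 * (2 * √Z) * (3 * Real.log Z) := by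
      apply mul_le_mul _ h8 h9 (by positivity)
      linarith
    rw [h3]
    have h11 : 0 ≤ √Z * Real.log Z := mul_nonneg hsq (by linarith)
    calc _ ≤ 8 * (Chebyshev.psi (3 * Z) - Chebyshev.theta (3 * Z)) := h1
      _ ≤ 8 * (2 * (2 * √Z) * (3 * Real.log Z)) := by linarith
      _ = 96 * (√Z * Real.log Z) := by ring
      _ ≤ 100 * (√Z * Real.log Z) := by linarith
  · exact Finset.sum_nonneg (fun n _ => x1_OmL_nonneg lam hZ0.le n)
  · have h1 := x1_sum_le hlam hZ0 hlog (Icc 1 ⌊3 * Z⌋₊) (fun _ => 1) (fun n _ => zero_le_one)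
    simp only [one_mul, Finset.sum_const, Nat.card_Icc, nsmul_eq_mul, mul_one] at h1
    have h2 : ((⌊3 * Z⌋₊ + 1 - 1 : ℕ) : ℝ) ≤ 3 * Z := by
      rw [Nat.add_sub_cancel]
      exact Nat.floor_le h3Z
    unfold SO
    linarith
  · have h1 := x1_sum_le hlam hZ0 hlog ((Icc 1 ⌊3 * Z⌋₊).filter (fun n => n.Prime))
      (fun n => Real.log n) (fun n _ => Real.log_natCast_nonneg n)
    have h2 := Chebyshev.theta_eq_sum_Icc (3 * Z)
    have h3 : ∑ p ∈ (Icc 1 ⌊3 * Z⌋₊).filter (fun n => n.Prime), Real.log p ≤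
        Chebyshev.theta (3 * Z) := by
      rw [h2]
      refine Finset.sum_le_sum_of_subset_of_nonneg ?_ (fun n _ _ => Real.log_natCast_nonneg n)
      intro n hn
      simp only [Finset.mem_filter, Finset.mem_Icc] at hn ⊢
      exact ⟨⟨Nat.zero_le _, hn.1.2⟩, hn.2⟩
    have h4 := Chebyshev.theta_le_log4_mul_x h3Z
    have h5 : Real.log 4 ≤ 2 := by
      have h6 : Real.log 4 = 2 * Real.log 2 := by
        rw [show (4 : ℝ) = 2 ^ 2 by norm_num, Real.log_pow]; norm_num
      have := Real.log_two_lt_d9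
      linarith
    have h7 : Real.log 4 * (3 * Z) ≤ 2 * (3 * Z) := mul_le_mul_of_nonneg_right h5 h3Z
    linarith

end Pool.Agent.MP0016c7.PC
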