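import Mathlib
import Pool.Agent.Lib.MP_0016c7_nt.PC.X.StmX
import Pool.Agent.Lib.MP_0016c7_nt.Qls.QJr
import Pool.Agent.Lib.MP_0da313_nt.BV.SmallCor

set_option autoImplicit false

/-!
Block [X]: the class indicator and the comparison of the prime sums with the sums `EU`.
-/

open Finset MeasureTheory Filter Topology
open scoped Real ContDiff

namespace Pool.Agent.MP0016c7.PC

open Pool.Agent.MP0016c7.Rz
open Pool.Agent.BVall (OmL OmL_nonneg)

private lemma x0_at (p : ℕ) (hp : Odd p) :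
    jr 1 p = 1 ∧ jr (-1) p = (if p % 4 = 1 then 1 else -1) ∧
    jr 2 p = (if p % 8 = 1 ∨ p % 8 = 7 then 1 else -1) ∧
    jr (-2) p = (if p % 8 = 1 ∨ p % 8 = 3 then 1 else -1) := by
  have h2 : ¬ p % 2 = 0 := by
    have := Nat.odd_iff.1 hp
    omega
  refine ⟨jr_one_left hp, ?_, ?_, ?_⟩
  · rw [jr_of_odd _ hp, jacobiSym.at_neg_one hp, ZMod.χ₄_nat_eq_if_mod_four, if_neg h2]
    split_ifs <;> simp
  · rw [jr_of_odd _ hp, jacobiSym.at_two hp, ZMod.χ₈_nat_eq_if_mod_eight, if_neg h2]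
    split_ifs <;> simp
  · rw [jr_of_odd _ hp, jacobiSym.at_neg_two hp, ZMod.χ₈'_nat_eq_if_mod_eight, if_neg h2]
    split_ifs <;> simp

private lemma x0_sum (f : ℤ → ℝ) :
    ∑ u ∈ ({1, -1, 2, -2} : Finset ℤ), f u = f 1 + (f (-1) + (f 2 + f (-2))) := by
  rw [sum_insert (by decide), sum_insert (by decide), sum_insert (by decide), sum_singleton]

/-- The indicator function of a class modulo `8` as a combination of quadratic characters. -/
theorem class_ind {r : ℕ} (hr : r ∈ ({1, 3, 5, 7} : Finset ℕ)) (p : ℕ) :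
    ∑ u ∈ ({1, -1, 2, -2} : Finset ℤ), jr u r * jr u p = if p % 8 = r then 4 else 0 := by
  rcases Nat.even_or_odd p with hp | hp
  · have h0 : ∀ u : ℤ, jr u p = 0 := by
      intro u
      unfold jr
      rw [if_neg (by simpa using hp)]
    have hr2 : ¬ p % 8 = r := by
      obtain ⟨k, hk⟩ := hp
      simp only [mem_insert, mem_singleton] at hr
      omega
    rw [if_neg hr2]
    exact sum_eq_zero fun u _ => by rw [h0, mul_zero]
  · obtain ⟨a1, a2, a3, a4⟩ := x0_at p hp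
    have hp8 : p % 8 = 1 ∨ p % 8 = 3 ∨ p % 8 = 5 ∨ p % 8 = 7 := by
      have := Nat.odd_iff.1 hp
      omega
    have hro : Odd r := by
      simp only [mem_insert, mem_singleton] at hr
      rcases hr with h | h | h | h <;> rw [h] <;> decide
    obtain ⟨b1, b2, b3, b4⟩ := x0_at r hro
    rw [x0_sum, a1, a2, a3, a4, b1, b2, b3, b4]
    have hp4 : p % 4 = (p % 8) % 4 := by omega
    rw [hp4]
    simp only [mem_insert, mem_singleton] at hr
    rcases hr with h | h | h | h <;> rcases hp8 with h' | h' | h' | h' <;> rw [h, h'] <;> norm_num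

/-- The sum over the primes of a class in terms of the characters. -/
theorem psiR_class {r : ℕ} (hr : r ∈ ({1, 3, 5, 7} : Finset ℕ)) (lam Z : ℝ) (g : ℕ → ℝ) :
    4 * psiR (fun p => p % 8 = r) lam Z g = ∑ u ∈ ({1, -1, 2, -2} : Finset ℤ), jr u r *
      ∑ p ∈ (Icc 1 ⌊3 * Z⌋₊).filter (fun p => p.Prime),
        Real.log p * OmL lam Z p * (jr u p * g p) := by
  have h1 : ∑ u ∈ ({1, -1, 2, -2} : Finset ℤ), jr u r *
      ∑ p ∈ (Icc 1 ⌊3 * Z⌋₊).filter (fun p => p.Prime),
        Real.log p * OmL lam Z p * (jr u p * g p) =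
      ∑ p ∈ (Icc 1 ⌊3 * Z⌋₊).filter (fun p => p.Prime), Real.log p * OmL lam Z p * g p *
        ∑ u ∈ ({1, -1, 2, -2} : Finset ℤ), jr u r * jr u p := by
    simp only [mul_sum]
    rw [sum_comm]
    refine sum_congr rfl fun p _ => sum_congr rfl fun u _ => by ring
  rw [h1, psiR, mul_sum]
  have h2 : ∀ p ∈ (Icc 1 ⌊3 * Z⌋₊).filter (fun p => p.Prime), Real.log p * OmL lam Z p * g p *
        ∑ u ∈ ({1, -1, 2, -2} : Finset ℤ), jr u r * jr u p =
      if p % 8 = r then 4 * (Real.log p * OmL lam Z p * g p) else 0 := by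
    intro p _
    rw [class_ind hr p]
    split_ifs <;> ring
  rw [sum_congr rfl h2, ← sum_filter, filter_filter]
  exact sum_congr (by ext; simp) fun _ _ => rfl

/-- Comparison of `EU` with the sum over primes. -/
theorem EU_prime (lam : ℝ) {Z : ℝ} (hZ : 0 ≤ Z) (u : ℤ) (a : ℕ) :
    |EU lam Z u a - ∑ p ∈ (Icc 1 ⌊3 * Z⌋₊).filter (fun p => p.Prime),
        Real.log p * OmL lam Z p * (jr u p * jr p a)| ≤
      ∑ n ∈ (Icc 1 ⌊3 * Z⌋₊).filter (fun n => ¬ n.Prime),
        ArithmeticFunction.vonMangoldt n * OmL lam Z n := by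
  have h1 : EU lam Z u a = ∑ p ∈ (Icc 1 ⌊3 * Z⌋₊).filter (fun p => p.Prime),
        Real.log p * OmL lam Z p * (jr u p * jr p a) +
      ∑ n ∈ (Icc 1 ⌊3 * Z⌋₊).filter (fun n => ¬ n.Prime),
        ArithmeticFunction.vonMangoldt n * OmL lam Z n * (jr u n * jr n a) := by
    rw [EU, ← sum_filter_add_sum_filter_not (Icc 1 ⌊3 * Z⌋₊) (fun n => n.Prime)]
    congr 1
    refine sum_congr rfl fun p hp => ?_
    rw [ArithmeticFunction.vonMangoldt_apply_prime (mem_filter.1 hp).2]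
  rw [h1, add_sub_cancel_left]
  refine (abs_sum_le_sum_abs _ _).trans (sum_le_sum fun n _ => ?_)
  have h2 : 0 ≤ ArithmeticFunction.vonMangoldt n * OmL lam Z n :=
    mul_nonneg ArithmeticFunction.vonMangoldt_nonneg (OmL_nonneg lam hZ n)
  rw [abs_mul, abs_of_nonneg h2, abs_mul]
  have h3 := abs_jr_le u n
  have h4 := abs_jr_le n a
  have h5 : |jr u n| * |jr (n : ℤ) a| ≤ 1 := mul_le_one₀ h3 (abs_nonneg _) h4
  nlinarith

end Pool.Agent.MP0016c7.PC
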