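import Mathlib
import Pool.Agent.Lib.MP_0016c7_nt.PC.X.X0
import Pool.Agent.Lib.MP_0016c7_nt.Rz.ArithA1
import Pool.Agent.Lib.MP_0da313_nt.BV.LargeL

set_option autoImplicit false

/-!
Block [X], piece X2: the characters over the primes in a class modulo `8`.
-/

open Finset MeasureTheory Filter Topology
open scoped Real ContDiff

namespace Pool.Agent.MP0016c7.PC

open Pool.Agent.MP0016c7.Rz
open Pool.Agent.BVall (OmL OmL_nonneg OmL_eq_zero_of_small)

private lemma x2_big {lam : ℝ} (hlam : 1 ≤ lam) {Z : ℝ} (hZ : 0 < Z) {p N : ℕ} (hp : p.Prime)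
    (h3 : 3 * (N : ℝ) ≤ Z) (hO : OmL lam Z p ≠ 0) : N < p := by
  by_contra hlt
  apply hO
  apply OmL_eq_zero_of_small hlam hZ hp.pos
  have h1 : (p : ℝ) ≤ N := by exact_mod_cast not_lt.1 hlt
  have h2 := Real.exp_one_lt_d9
  have h4 : (0 : ℝ) ≤ p := Nat.cast_nonneg p
  nlinarith

private lemma x2_cop {p b N : ℕ} (hp : p.Prime) (hN : Odd N) (hNp : N < p) (hb : b ∣ N)
    (c₀ : ℕ) (hc₀ : c₀ = 1 ∨ c₀ = 2) (σ : ℤ) (hσ : σ = 1 ∨ σ = -1) :
    IsCoprime (2 * σ * ((c₀ * p : ℕ) : ℤ)) (b : ℤ) := by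
  have hN0 : N ≠ 0 := by rintro rfl; exact absurd hN (by decide)
  have hbo : Odd b := hN.of_dvd_nat hb
  have hb0 : 0 < b := Nat.pos_of_ne_zero (by rintro rfl; exact hN0 (Nat.eq_zero_of_zero_dvd hb))
  have h1 : Nat.Coprime p b := by
    rw [hp.coprime_iff_not_dvd]
    intro h
    have := Nat.le_of_dvd hb0 h
    have := Nat.le_of_dvd (Nat.pos_of_ne_zero hN0) hb
    omega
  have h2 : Nat.Coprime 2 b := Nat.coprime_two_left.2 hbo
  have h3 : Nat.Coprime (2 * (c₀ * p)) b := by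
    refine Nat.Coprime.mul_left h2 (Nat.Coprime.mul_left ?_ h1)
    rcases hc₀ with h | h <;> rw [h]
    · exact Nat.coprime_one_left b
    · exact h2
  have h4 : IsCoprime ((2 * (c₀ * p) : ℕ) : ℤ) (b : ℤ) := Nat.isCoprime_iff_coprime.2 h3
  rcases hσ with h | h <;> rw [h]
  · have e : (2 * 1 * ((c₀ * p : ℕ) : ℤ)) = ((2 * (c₀ * p) : ℕ) : ℤ) := by push_cast; ring
    rw [e]
    exact h4
  · have e : (2 * (-1) * ((c₀ * p : ℕ) : ℤ)) = -((2 * (c₀ * p) : ℕ) : ℤ) := by push_cast; ring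
    rw [e]
    exact h4.neg_left

open Classical in
private lemma x2_psi_congr (R : ℕ → Prop) (lam Z : ℝ) (g g' : ℕ → ℝ)
    (h : ∀ p : ℕ, p.Prime → OmL lam Z p ≠ 0 → g p = g' p) : psiR R lam Z g = psiR R lam Z g' := by
  unfold psiR
  refine sum_congr rfl fun p hp => ?_
  have hpp := (mem_filter.1 hp).2.1
  by_cases hO : OmL lam Z p = 0
  · rw [hO]; ring
  · rw [h p hpp hO]

open Classical in
private lemma x2_psi_mul (R : ℕ → Prop) (lam Z c : ℝ) (g : ℕ → ℝ) :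
    psiR R lam Z (fun p => c * g p) = c * psiR R lam Z g := by
  unfold psiR
  rw [mul_sum]
  exact sum_congr rfl fun p _ => by ring

theorem p_X2 (h1 : S_X1) : S_X2 := by
  intro lam hlam
  obtain ⟨C, Z₀, hC, hX1⟩ := h1 lam hlam
  refine ⟨C, max Z₀ 1, hC, fun Z hZ r hr c₀ hc₀ σ hσ N hN h3 => ?_⟩
  have hZ1 : 1 ≤ Z := (le_max_right _ _).trans hZ
  have hZ0 : 0 < Z := by linarith
  have hNP := (hX1 Z ((le_max_left _ _).trans hZ)).1
  have hN0 : N ≠ 0 := by rintro rfl; exact absurd hN (by decide)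
  constructor
  · rintro ⟨b, hb⟩
    unfold fP
    refine x2_psi_congr _ _ _ _ _ fun p hp hO => ?_
    have hNp := x2_big hlam hZ0 hp h3 hO
    have hbN : b ∣ N := ⟨b, hb⟩
    have hcop := x2_cop hp hN hNp hbN c₀ hc₀ σ hσ
    show jr (2 * σ * ((c₀ * p : ℕ) : ℤ)) N = 1
    rw [hb, jr_mul, ← pow_two]
    exact jr_sq_one (hN.of_dvd_nat hbN) hcop
  · set a : ℕ := sq1 N with ha
    have hN' : a * sq2 N ^ 2 = N := sq1_mul_sq2 N hN0
    have hb2 : sq2 N ∣ N := ⟨a * sq2 N, by rw [mul_left_comm, ← pow_two]; exact hN'.symm⟩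
    have e1 : fP r c₀ σ lam Z N =
        jr (2 * σ * c₀) a * psiR (fun p => p % 8 = r) lam Z (fun p => jr p a) := by
      rw [← x2_psi_mul]
      unfold fP
      refine x2_psi_congr _ _ _ _ _ fun p hp hO => ?_
      have hNp := x2_big hlam hZ0 hp h3 hO
      have hcop := x2_cop hp hN hNp hb2 c₀ hc₀ σ hσ
      have h5 := jr_sq_one (hN.of_dvd_nat hb2) hcop
      calc jr (2 * σ * ((c₀ * p : ℕ) : ℤ)) N
          = jr (2 * σ * ((c₀ * p : ℕ) : ℤ)) (a * sq2 N ^ 2) := by rw [hN']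
        _ = jr (2 * σ * ((c₀ * p : ℕ) : ℤ)) a * (jr (2 * σ * ((c₀ * p : ℕ) : ℤ)) (sq2 N)) ^ 2 := by
            rw [jr_mul, pow_two, jr_mul, ← pow_two]
        _ = jr (2 * σ * ((c₀ * p : ℕ) : ℤ)) a := by rw [h5, mul_one]
        _ = jr (2 * σ * c₀ * p) a := by congr 1; push_cast; ring
        _ = jr (2 * σ * c₀) a * jr p a := by rw [jr_mul_left]
    have e2 : |fP r c₀ σ lam Z N| ≤ |psiR (fun p => p % 8 = r) lam Z (fun p => jr p a)| := by
      rw [e1, abs_mul]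
      exact mul_le_of_le_one_left (abs_nonneg _) (abs_jr_le _ _)
    have e3 := psiR_class hr lam Z (fun p => jr p a)
    have e4 : |4 * psiR (fun p => p % 8 = r) lam Z (fun p => jr p a)| ≤
        ∑ u ∈ ({1, -1, 2, -2} : Finset ℤ), (|EU lam Z u a| + C * (√Z * Real.log Z)) := by
      rw [e3]
      refine (abs_sum_le_sum_abs _ _).trans (sum_le_sum fun u _ => ?_)
      rw [abs_mul]
      refine (mul_le_of_le_one_left (abs_nonneg _) (abs_jr_le _ _)).trans ?_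
      have h6 := (EU_prime lam hZ0.le u a).trans hNP
      have h7 := abs_sub_abs_le_abs_sub (∑ p ∈ (Icc 1 ⌊3 * Z⌋₊).filter (fun p => p.Prime),
        Real.log p * OmL lam Z p * (jr u p * jr p a)) (EU lam Z u a)
      rw [abs_sub_comm] at h6
      linarith
    have hcard : ({1, -1, 2, -2} : Finset ℤ).card = 4 := by decide
    rw [sum_add_distrib, sum_const, hcard, abs_mul, abs_of_pos (by norm_num : (0 : ℝ) < 4),
      nsmul_eq_mul] at e4
    have h8 : 0 ≤ ∑ u ∈ ({1, -1, 2, -2} : Finset ℤ), |EU lam Z u a| :=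
      sum_nonneg fun _ _ => abs_nonneg _
    push_cast at e4
    linarith

end Pool.Agent.MP0016c7.PC
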