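import Mathlib
import Pool.Agent.Lib.MP_0016c7_nt.PC.X.StmX
import Pool.Agent.Lib.MP_0016c7_nt.Qls.QJr
import Pool.Agent.Lib.MP_0da313_nt.BV.SmallCor
import Pool.Agent.Lib.MP_0da313_nt.BV.LargeL

set_option autoImplicit false

/-!
X3: the mass of a class modulo `8`.
-/

open Finset MeasureTheory Filter Topology
open scoped Real ContDiff

namespace Pool.Agent.MP0016c7.PC

open Pool.Agent.MP0016c7.Rz
open Pool.Agent.BVall (OmL psiXL psiXL_approx OmL_nonneg OmL_eq_zero_of_small)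

private lemma x3_m1 {n : ℕ} (hn : Odd n) :
    jr (-1) n = ((ZMod.χ₄ ((n % 8 : ℕ) : ZMod 4) : ℤ) : ℝ) := by
  unfold jr
  rw [if_pos hn, jacobiSym.at_neg_one hn, ZMod.χ₄_nat_mod_four, ZMod.χ₄_nat_mod_four (n % 8),
    Nat.mod_mod_of_dvd n (by norm_num : 4 ∣ 8)]

private lemma x3_2 {n : ℕ} (hn : Odd n) :
    jr 2 n = ((ZMod.χ₈ ((n % 8 : ℕ) : ZMod 8) : ℤ) : ℝ) := by
  unfold jr
  rw [if_pos hn, jacobiSym.at_two hn, ZMod.χ₈_nat_mod_eight]

private lemma x3_m2 {n : ℕ} (hn : Odd n) :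
    jr (-2) n = ((ZMod.χ₈' ((n % 8 : ℕ) : ZMod 8) : ℤ) : ℝ) := by
  unfold jr
  rw [if_pos hn, jacobiSym.at_neg_two hn, ZMod.natCast_mod]

private lemma x3_one_left {n : ℕ} (hn : Odd n) : jr 1 n = 1 := jr_one_left hn

/-- the class indicator -/
private lemma x3_ind (n : ℕ) (r : ℕ) (hr : r ∈ ({1, 3, 5, 7} : Finset ℕ)) :
    (if n % 8 = r then (1 : ℝ) else 0) =
      (1 / 4) * ∑ u ∈ ({1, -1, 2, -2} : Finset ℤ), jr u r * jr u n := by
  have hrr : r = 1 ∨ r = 3 ∨ r = 5 ∨ r = 7 := by simpa using hr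
  have hro : Odd r := by
    rcases hrr with rfl | rfl | rfl | rfl <;> decide
  rw [sum_insert (by decide), sum_insert (by decide), sum_insert (by decide), sum_singleton]
  by_cases hn : Odd n
  · have hs : n % 8 = 1 ∨ n % 8 = 3 ∨ n % 8 = 5 ∨ n % 8 = 7 := by
      obtain ⟨m, rfl⟩ := hn
      omega
    have h8 : r % 8 = r := by
      rcases hrr with rfl | rfl | rfl | rfl <;> rfl
    rw [x3_one_left hn, x3_one_left hro, x3_m1 hn, x3_m1 hro, x3_2 hn, x3_2 hro, x3_m2 hn,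
      x3_m2 hro, h8]
    have a1 : ZMod.χ₄ ((1 : ℕ) : ZMod 4) = 1 := by decide
    have a3 : ZMod.χ₄ ((3 : ℕ) : ZMod 4) = -1 := by decide
    have a5 : ZMod.χ₄ ((5 : ℕ) : ZMod 4) = 1 := by decide
    have a7 : ZMod.χ₄ ((7 : ℕ) : ZMod 4) = -1 := by decide
    have b1 : ZMod.χ₈ ((1 : ℕ) : ZMod 8) = 1 := by decide
    have b3 : ZMod.χ₈ ((3 : ℕ) : ZMod 8) = -1 := by decide
    have b5 : ZMod.χ₈ ((5 : ℕ) : ZMod 8) = -1 := by decide
    have b7 : ZMod.χ₈ ((7 : ℕ) : ZMod 8) = 1 := by decide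
    have c1 : ZMod.χ₈' ((1 : ℕ) : ZMod 8) = 1 := by decide
    have c3 : ZMod.χ₈' ((3 : ℕ) : ZMod 8) = 1 := by decide
    have c5 : ZMod.χ₈' ((5 : ℕ) : ZMod 8) = -1 := by decide
    have c7 : ZMod.χ₈' ((7 : ℕ) : ZMod 8) = -1 := by decide
    rcases hrr with rfl | rfl | rfl | rfl <;> rcases hs with h | h | h | h <;>
      simp only [h, a1, a3, a5, a7, b1, b3, b5, b7, c1, c3, c5, c7] <;> norm_num
  · have h0 : ∀ u : ℤ, jr u n = 0 := fun u => by unfold jr; rw [if_neg hn]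
    rw [if_neg, h0, h0, h0, h0]
    · ring
    · intro h
      apply hn
      rw [Nat.odd_iff]
      rcases hrr with rfl | rfl | rfl | rfl <;> omega

/-- the twisted prime sum -/
private noncomputable def x3T (lam Z : ℝ) (u : ℤ) : ℝ :=
  ∑ p ∈ (Icc 1 ⌊3 * Z⌋₊).filter (fun p => p.Prime), Real.log p * OmL lam Z p * jr u p

private lemma x3_psi (lam Z : ℝ) (r : ℕ) (hr : r ∈ ({1, 3, 5, 7} : Finset ℕ)) :
    psiR (fun p => p % 8 = r) lam Z (fun _ => 1) =
      (1 / 4) * ∑ u ∈ ({1, -1, 2, -2} : Finset ℤ), jr u r * x3T lam Z u := by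
  unfold psiR x3T
  have e1 : ((Icc 1 ⌊3 * Z⌋₊).filter (fun p => p.Prime ∧ p % 8 = r)) =
      ((Icc 1 ⌊3 * Z⌋₊).filter (fun p => p.Prime)).filter (fun p => p % 8 = r) := by
    rw [filter_filter]
  have e2 : ∑ p ∈ (Icc 1 ⌊3 * Z⌋₊).filter (fun p => p.Prime ∧ p % 8 = r),
      Real.log p * OmL lam Z p * 1 =
      ∑ p ∈ (Icc 1 ⌊3 * Z⌋₊).filter (fun p => p.Prime), Real.log p * OmL lam Z p *
        (if p % 8 = r then (1 : ℝ) else 0) := by
    rw [e1, sum_filter]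
    refine sum_congr rfl fun p _ => ?_
    split_ifs <;> ring
  have e0 : ∑ p ∈ (Icc 1 ⌊3 * Z⌋₊).filter (fun p => p.Prime ∧ (fun p => p % 8 = r) p),
      Real.log p * OmL lam Z p * (fun _ => (1 : ℝ)) p =
      ∑ p ∈ (Icc 1 ⌊3 * Z⌋₊).filter (fun p => p.Prime ∧ p % 8 = r),
        Real.log p * OmL lam Z p * 1 := by
    refine sum_congr ?_ fun _ _ => rfl
    ext p
    simp only [mem_filter]
  calc _ = ∑ p ∈ (Icc 1 ⌊3 * Z⌋₊).filter (fun p => p.Prime ∧ p % 8 = r),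
        Real.log p * OmL lam Z p * 1 := by
        refine sum_congr ?_ fun _ _ => rfl
        ext p
        simp only [mem_filter]
    _ = _ := by
        rw [e2]
        simp_rw [x3_ind _ r hr, mul_sum]
        rw [sum_comm]
        refine sum_congr rfl fun u _ => sum_congr rfl fun p _ => ?_
        ring

private lemma x3_T_EU {lam Z : ℝ} (hZ : 0 ≤ Z) (u : ℤ) {B : ℝ}
    (hB : ∑ n ∈ (Icc 1 ⌊3 * Z⌋₊).filter (fun n => ¬ n.Prime),
      ArithmeticFunction.vonMangoldt n * OmL lam Z n ≤ B) :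
    |EU lam Z u 1 - x3T lam Z u| ≤ B := by
  have h1 : EU lam Z u 1 = x3T lam Z u + ∑ n ∈ (Icc 1 ⌊3 * Z⌋₊).filter (fun n => ¬ n.Prime),
      ArithmeticFunction.vonMangoldt n * OmL lam Z n * jr u n := by
    unfold EU x3T
    rw [← sum_filter_add_sum_filter_not (Icc 1 ⌊3 * Z⌋₊) (fun n => n.Prime)]
    congr 1
    · refine sum_congr rfl fun p hp => ?_
      rw [jr_one_right, mul_one, ArithmeticFunction.vonMangoldt_apply_prime (mem_filter.1 hp).2]
    · refine sum_congr rfl fun p _ => ?_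
      rw [jr_one_right, mul_one]
  rw [h1, add_sub_cancel_left]
  refine (abs_sum_le_sum_abs _ _).trans (le_trans (sum_le_sum fun n _ => ?_) hB)
  have hn : 0 ≤ ArithmeticFunction.vonMangoldt n * OmL lam Z n :=
    mul_nonneg ArithmeticFunction.vonMangoldt_nonneg (OmL_nonneg lam hZ n)
  rw [abs_mul, abs_of_nonneg hn]
  have : |jr u n| ≤ 1 := by
    unfold jr
    split_ifs with h
    · rcases jacobiSym.trichotomy u n with h' | h' | h' <;> rw [h'] <;> norm_num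
    · norm_num
  calc _ ≤ ArithmeticFunction.vonMangoldt n * OmL lam Z n * 1 :=
        mul_le_mul_of_nonneg_left this hn
    _ = _ := mul_one _

private lemma x3_T_psi {lam Z : ℝ} (hlam : 1 ≤ lam) (hZ : 2 * Real.exp 1 ≤ Z) {B : ℝ}
    (hB : ∑ n ∈ (Icc 1 ⌊3 * Z⌋₊).filter (fun n => ¬ n.Prime),
      ArithmeticFunction.vonMangoldt n * OmL lam Z n ≤ B) :
    |psiXL lam Z - x3T lam Z 1| ≤ B := by
  have hZ0 : 0 < Z := lt_of_lt_of_le (by positivity) hZ
  have h1 : psiXL lam Z = x3T lam Z 1 + ∑ n ∈ (Icc 1 ⌊3 * Z⌋₊).filter (fun n => ¬ n.Prime),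
      ArithmeticFunction.vonMangoldt n * OmL lam Z n := by
    unfold psiXL x3T
    rw [← sum_filter_add_sum_filter_not (Icc 1 ⌊3 * Z⌋₊) (fun n => n.Prime)]
    congr 1
    refine sum_congr rfl fun p hp => ?_
    have hpp := (mem_filter.1 hp).2
    rw [ArithmeticFunction.vonMangoldt_apply_prime hpp]
    rcases hpp.eq_two_or_odd' with h2 | h2
    · rw [h2, OmL_eq_zero_of_small hlam hZ0 (by norm_num) (by push_cast; linarith)]
      ring
    · rw [jr_one_left h2, mul_one]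
  rw [h1, add_sub_cancel_left, abs_of_nonneg]
  · exact hB
  · exact sum_nonneg fun n _ =>
      mul_nonneg ArithmeticFunction.vonMangoldt_nonneg (OmL_nonneg lam hZ0.le n)

private lemma x3_EU {lam Z : ℝ} (hZ : 1 ≤ Z) {u : ℤ} (hu : u ∈ ({1, -1, 2, -2} : Finset ℤ))
    (hu1 : u ≠ 1) (h : ∀ u ∈ ({1, -1, 2, -2} : Finset ℤ),
      ∑ a ∈ (Osq ⌊Z ^ (1 - (1 / 2 : ℝ))⌋₊).filter (fun a => u ≠ 1 ∨ a ≠ 1),
      (a.divisors.card : ℝ) ^ 0 / √(a : ℝ) * |EU lam Z u a| ≤ Z / (Real.log Z) ^ 1) :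
    |EU lam Z u 1| ≤ Z / Real.log Z := by
  have h1 := h u hu
  rw [pow_one] at h1
  refine le_trans ?_ h1
  have hmem : 1 ∈ (Osq ⌊Z ^ (1 - (1 / 2 : ℝ))⌋₊).filter (fun a => u ≠ 1 ∨ a ≠ 1) := by
    rw [mem_filter]
    refine ⟨?_, Or.inl hu1⟩
    unfold Osq
    rw [mem_filter, mem_Icc]
    refine ⟨⟨le_rfl, ?_⟩, odd_one, squarefree_one⟩
    apply Nat.le_floor
    rw [Nat.cast_one]
    exact Real.one_le_rpow hZ (by norm_num)
  have h2 := single_le_sum (f := fun a : ℕ => (a.divisors.card : ℝ) ^ 0 / √(a : ℝ) *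
    |EU lam Z u a|) (fun a _ => by positivity) hmem
  refine le_trans (le_of_eq ?_) h2
  simp

theorem p_X3 (hEU : JF_EU) (h1 : S_X1) : S_X3 := by
  intro lam hlam r hr ε' hε'
  obtain ⟨C, Z₁, hC, H1⟩ := h1 lam hlam
  obtain ⟨Z₂, H2⟩ := hEU lam hlam (1 / 2) (by norm_num) 1 0
  have ev1 := psiXL_approx 1 hlam
  have ev2 : ∀ᶠ Z : ℝ in atTop, C * (√Z * Real.log Z) ≤ ε' / 2 * Z := by
    have h := (isLittleO_log_rpow_atTop (by norm_num : (0 : ℝ) < 1 / 2)).def
      (show (0 : ℝ) < ε' / (2 * C) by positivity)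
    filter_upwards [h, eventually_ge_atTop 1] with Z hZ hZ1
    have hl : 0 ≤ Real.log Z := Real.log_nonneg hZ1
    have hr0 : 0 ≤ Z ^ (1 / 2 : ℝ) := Real.rpow_nonneg (by linarith) _
    rw [Real.norm_of_nonneg hl, Real.norm_of_nonneg hr0, ← Real.sqrt_eq_rpow] at hZ
    calc C * (√Z * Real.log Z) ≤ C * (√Z * (ε' / (2 * C) * √Z)) := by gcongr
      _ = ε' / 2 * (√Z * √Z) := by field_simp
      _ = _ := by rw [Real.mul_self_sqrt (by linarith)]
  have ev3 : ∀ᶠ Z : ℝ in atTop, 3 / ε' ≤ Real.log Z :=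
    Real.tendsto_log_atTop.eventually_ge_atTop _
  have key : ∀ᶠ Z : ℝ in atTop,
      |psiR (fun p => p % 8 = r) lam Z (fun _ => 1) - SO lam Z / 4| ≤ ε' * Z := by
    filter_upwards [ev1, ev2, ev3, eventually_ge_atTop Z₁, eventually_ge_atTop Z₂,
      eventually_ge_atTop (2 * Real.exp 1)] with Z e1 e2 e3 e4 e5 e6
    have hZ0 : 0 < Z := lt_of_lt_of_le (by positivity) e6
    have hZ1 : 1 ≤ Z := by
      have := Real.add_one_le_exp (1 : ℝ)
      linarith
    have hB := (H1 Z e4).1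
    have hE := H2 Z e5
    have hlog : 0 < Real.log Z := lt_of_lt_of_le (by positivity) e3
    rw [pow_one] at e1
    have hq : Z / Real.log Z ≤ ε' / 3 * Z := by
      rw [div_le_iff₀ hlog]
      have : 1 ≤ ε' / 3 * Real.log Z := by
        calc (1 : ℝ) = ε' / 3 * (3 / ε') := by field_simp
          _ ≤ _ := by gcongr
      nlinarith
    set B := C * (√Z * Real.log Z) with hBdef
    have hT1 : |x3T lam Z 1 - SO lam Z| ≤ B + 3 * (Z / Real.log Z) := by
      have a1 := x3_T_psi hlam e6 hB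
      have a2 : |psiXL lam Z - SO lam Z| ≤ 3 * (Z / Real.log Z) := e1
      have a3 : x3T lam Z 1 - SO lam Z = -(psiXL lam Z - x3T lam Z 1) +
        (psiXL lam Z - SO lam Z) := by ring
      rw [a3]
      refine (abs_add_le _ _).trans ?_
      rw [abs_neg]
      exact add_le_add a1 a2
    have hTu : ∀ u ∈ ({1, -1, 2, -2} : Finset ℤ), u ≠ 1 → |x3T lam Z u| ≤ B + Z / Real.log Z := by
      intro u hu hu1
      have a1 := x3_T_EU hZ0.le u hB
      have a2 := x3_EU hZ1 hu hu1 hE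
      have a3 : x3T lam Z u = -(EU lam Z u 1 - x3T lam Z u) + EU lam Z u 1 := by ring
      rw [a3]
      refine (abs_add_le _ _).trans ?_
      rw [abs_neg]
      exact add_le_add a1 a2
    have hro : Odd r := by
      have hrr : r = 1 ∨ r = 3 ∨ r = 5 ∨ r = 7 := by simpa using hr
      rcases hrr with rfl | rfl | rfl | rfl <;> decide
    have hjr : ∀ u : ℤ, |jr u r| ≤ 1 := by
      intro u
      unfold jr
      rw [if_pos hro]
      rcases jacobiSym.trichotomy u r with h' | h' | h' <;> rw [h'] <;> norm_num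
    have hprod : ∀ u ∈ ({1, -1, 2, -2} : Finset ℤ), u ≠ 1 →
        |jr u r * x3T lam Z u| ≤ B + Z / Real.log Z := by
      intro u hu hu1
      rw [abs_mul]
      calc _ ≤ 1 * |x3T lam Z u| := mul_le_mul_of_nonneg_right (hjr u) (abs_nonneg _)
        _ ≤ _ := by rw [one_mul]; exact hTu u hu hu1
    rw [x3_psi lam Z r hr, sum_insert (by decide), sum_insert (by decide), sum_insert (by decide),
      sum_singleton, jr_one_left hro, one_mul]
    have b1 := hprod (-1) (by decide) (by decide)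
    have b2 := hprod 2 (by decide) (by decide)
    have b3 := hprod (-2) (by decide) (by decide)
    rw [abs_le] at *
    constructor
    · linarith [hT1.1, b1.1, b2.1, b3.1]
    · linarith [hT1.2, b1.2, b2.2, b3.2]
  exact eventually_atTop.1 key

end Pool.Agent.MP0016c7.PC
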