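import Pool.Agent.Lib.MP_0016c7_nt.PC.X.StmX
import Pool.Agent.Lib.MP_0016c7_nt.PC.W.StmW
import Pool.Agent.Lib.MP_0016c7_nt.Rz.ArithA1

set_option autoImplicit false

open Finset MeasureTheory Filter Topology
open scoped Real ContDiff

namespace Pool.Agent.MP0016c7.PC

open Pool.Agent.MP0016c7.Rz
open Pool.Agent.BVall (OmL)

private theorem x4_dmul (a b : ℕ) :
    ((a * b).divisors.card : ℝ) ≤ (a.divisors.card : ℝ) * b.divisors.card := by
  rw [Nat.divisors_mul]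
  exact_mod_cast Finset.card_mul_le

/-- splitting off the square part -/
private theorem x4_split (K : ℕ) (G : ℕ → ℝ) (hG : ∀ a, 0 ≤ G a) :
    ∑ N ∈ (Icc 1 K).filter (fun N => Odd N ∧ ¬ IsSquare N),
      (N.divisors.card : ℝ) ^ 3 / √(N : ℝ) * G (sq1 N) ≤
    (∑ a ∈ (Osq K).filter (fun a => a ≠ 1), (a.divisors.card : ℝ) ^ 3 / √(a : ℝ) * G a) *
      ∑ b ∈ Icc 1 K, (b.divisors.card : ℝ) ^ 6 / b := by
  let F : ℕ × ℕ → ℝ := fun y => ((y.1.divisors.card : ℝ) ^ 3 / √(y.1 : ℝ) * G y.1) *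
    ((y.2.divisors.card : ℝ) ^ 6 / y.2)
  have hF : ∀ y, 0 ≤ F y := fun y => by
    have := hG y.1
    positivity
  let φ : ℕ → ℕ × ℕ := fun N => (sq1 N, sq2 N)
  set S := (Icc 1 K).filter (fun N => Odd N ∧ ¬ IsSquare N) with hS
  have hSm : ∀ N ∈ S, 1 ≤ N ∧ N ≤ K ∧ Odd N ∧ ¬ IsSquare N := by
    intro N hN
    rw [hS, Finset.mem_filter, Finset.mem_Icc] at hN
    exact ⟨hN.1.1, hN.1.2, hN.2.1, hN.2.2⟩
  have hdec : ∀ N ∈ S, sq1 N * sq2 N ^ 2 = N := fun N hN => by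
    have := hSm N hN
    exact sq1_mul_sq2 N (by omega)
  have hinj : Set.InjOn φ (S : Finset ℕ) := by
    intro N hN N' hN' h
    simp only [φ, Prod.mk.injEq] at h
    rw [← hdec N hN, ← hdec N' hN', h.1, h.2]
  have hpos : ∀ N ∈ S, 0 < sq1 N ∧ 0 < sq2 N := by
    intro N hN
    have h4 := hdec N hN
    have h5 := hSm N hN
    refine ⟨?_, ?_⟩
    · rcases Nat.eq_zero_or_pos (sq1 N) with h | h
      · rw [h, zero_mul] at h4; omega
      · exact h
    · rcases Nat.eq_zero_or_pos (sq2 N) with h | h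
      · rw [h] at h4; norm_num at h4; omega
      · exact h
  have hterm : ∀ N ∈ S, (N.divisors.card : ℝ) ^ 3 / √(N : ℝ) * G (sq1 N) ≤ F (φ N) := by
    intro N hN
    have h2 := hdec N hN
    obtain ⟨ha, hb⟩ := hpos N hN
    set a := sq1 N
    set b := sq2 N
    have haR : (0 : ℝ) < a := by exact_mod_cast ha
    have hbR : (0 : ℝ) < b := by exact_mod_cast hb
    have h3 : √(N : ℝ) = √(a : ℝ) * b := by
      have h4 : (N : ℝ) = a * (b : ℝ) ^ 2 := by
        rw [← h2]; push_cast; ring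
      rw [h4, Real.sqrt_mul (by positivity), Real.sqrt_sq (by positivity)]
    have h5 : (N.divisors.card : ℝ) ≤ (a.divisors.card : ℝ) * (b.divisors.card : ℝ) ^ 2 := by
      have h6 := x4_dmul a (b ^ 2)
      rw [h2] at h6
      have h7 := x4_dmul b b
      rw [← sq b] at h7
      refine h6.trans (mul_le_mul_of_nonneg_left ?_ (by positivity))
      rw [sq (b.divisors.card : ℝ)]
      exact h7
    rw [h3]
    change _ ≤ ((a.divisors.card : ℝ) ^ 3 / √(a : ℝ) * G a) * ((b.divisors.card : ℝ) ^ 6 / b)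
    have h8 : (N.divisors.card : ℝ) ^ 3 / (√(a : ℝ) * b) ≤
        (a.divisors.card : ℝ) ^ 3 / √(a : ℝ) * ((b.divisors.card : ℝ) ^ 6 / b) := by
      rw [div_mul_div_comm]
      refine div_le_div_of_nonneg_right ?_ (by positivity)
      have h9 : (b.divisors.card : ℝ) ^ 6 = ((b.divisors.card : ℝ) ^ 2) ^ 3 := by ring
      rw [h9, ← mul_pow]
      exact pow_le_pow_left₀ (by positivity) h5 3
    calc (N.divisors.card : ℝ) ^ 3 / (√(a : ℝ) * b) * G a
        ≤ (a.divisors.card : ℝ) ^ 3 / √(a : ℝ) * ((b.divisors.card : ℝ) ^ 6 / b) * G a :=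
          mul_le_mul_of_nonneg_right h8 (hG a)
      _ = _ := by ring
  have h2 : ∑ N ∈ S, F (φ N) = ∑ y ∈ S.image φ, F y := by
    rw [Finset.sum_image hinj]
  have h3 : S.image φ ⊆ (Osq K).filter (fun a => a ≠ 1) ×ˢ Icc 1 K := by
    intro y hy
    rw [Finset.mem_image] at hy
    obtain ⟨N, hN, rfl⟩ := hy
    have h4 := hdec N hN
    obtain ⟨ha, hb⟩ := hpos N hN
    obtain ⟨h1N, hNK, hodd, hns⟩ := hSm N hN
    have h5 : sq1 N ≤ N := by nlinarith [pow_pos hb 2]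
    have h6 : sq2 N ≤ N := by nlinarith
    have h7 : Odd (sq1 N) := by
      rw [← h4] at hodd
      exact (Nat.odd_mul.mp hodd).1
    have h8 : sq1 N ≠ 1 := by
      intro h
      apply hns
      rw [h, one_mul] at h4
      exact ⟨sq2 N, by rw [← sq]; exact h4.symm⟩
    simp only [φ, Finset.mem_product, Finset.mem_Icc, Finset.mem_filter, Osq]
    exact ⟨⟨⟨⟨ha, h5.trans hNK⟩, h7, squarefree_sq1 N⟩, h8⟩, hb, h6.trans hNK⟩
  calc ∑ N ∈ S, (N.divisors.card : ℝ) ^ 3 / √(N : ℝ) * G (sq1 N)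
      ≤ ∑ N ∈ S, F (φ N) := Finset.sum_le_sum hterm
    _ = ∑ y ∈ S.image φ, F y := h2
    _ ≤ ∑ y ∈ (Osq K).filter (fun a => a ≠ 1) ×ˢ Icc 1 K, F y :=
        Finset.sum_le_sum_of_subset_of_nonneg h3 fun y _ _ => hF y
    _ = _ := by
        rw [Finset.sum_mul_sum, ← Finset.sum_product']

/-- the sum `∑ d(a)^3 / √a` -/
private theorem x4_dsum (hw1 : S_W1) (K : ℕ) :
    ∑ a ∈ (Osq K).filter (fun a => a ≠ 1), (a.divisors.card : ℝ) ^ 3 / √(a : ℝ) ≤
      √(K : ℝ) * (1 + Real.log K) ^ 8 := by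
  have h1 : ∑ a ∈ (Osq K).filter (fun a => a ≠ 1), (a.divisors.card : ℝ) ^ 3 / √(a : ℝ) ≤
      ∑ a ∈ Icc 1 K, (a.divisors.card : ℝ) ^ 3 / √(a : ℝ) := by
    apply Finset.sum_le_sum_of_subset_of_nonneg
    · intro a ha
      rw [Finset.mem_filter, Osq, Finset.mem_filter] at ha
      exact ha.1.1
    · intro a _ _
      positivity
  have h2 : ∑ a ∈ Icc 1 K, (a.divisors.card : ℝ) ^ 3 / √(a : ℝ) ≤
      √(K : ℝ) * ∑ a ∈ Icc 1 K, (a.divisors.card : ℝ) ^ 3 / a := by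
    rw [Finset.mul_sum]
    apply Finset.sum_le_sum
    intro a ha
    rw [Finset.mem_Icc] at ha
    have ha0 : (0 : ℝ) < a := by exact_mod_cast ha.1
    have h3 : (a.divisors.card : ℝ) ^ 3 / √(a : ℝ) = √(a : ℝ) * ((a.divisors.card : ℝ) ^ 3 / a) := by
      have h4 : √(a : ℝ) * √(a : ℝ) = a := Real.mul_self_sqrt ha0.le
      have h5 : (0 : ℝ) < √(a : ℝ) := Real.sqrt_pos.mpr ha0
      rw [div_eq_iff h5.ne']
      have h6 : √(a : ℝ) * ((a.divisors.card : ℝ) ^ 3 / a) * √(a : ℝ) =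
          (√(a : ℝ) * √(a : ℝ)) * ((a.divisors.card : ℝ) ^ 3 / a) := by ring
      rw [h6, h4]
      field_simp
    rw [h3]
    refine mul_le_mul_of_nonneg_right ?_ (by positivity)
    exact Real.sqrt_le_sqrt (by exact_mod_cast ha.2)
  have h3 := hw1 3 K
  norm_num at h3
  exact (h1.trans h2).trans (mul_le_mul_of_nonneg_left h3 (Real.sqrt_nonneg _))

theorem p_X4 (hEU : JF_EU) (hw1 : S_W1) (h2 : S_X2) : S_X4 := by
  intro lam hlam η hη hη1 ε' hε'
  obtain ⟨C, Z₁, hC, hX2⟩ := h2 lam hlam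
  obtain ⟨Z₂, hE⟩ := hEU lam hlam η hη 65 3
  have hev1 : ∀ᶠ Z : ℝ in atTop, 2 ^ 67 / ε' ≤ Real.log Z :=
    Real.tendsto_log_atTop.eventually_ge_atTop _
  have hev2 : ∀ᶠ Z : ℝ in atTop, C * 2 ^ 72 * (Real.log Z) ^ 73 ≤ ε' / 2 * Z ^ (η / 2) := by
    have h := isLittleO_log_rpow_rpow_atTop (73 : ℝ) (half_pos hη)
    have hc : 0 < ε' / 2 / (C * 2 ^ 72) := by positivity
    filter_upwards [h.bound hc, eventually_ge_atTop (1 : ℝ)] with Z hZ hZ1
    have hl : 0 ≤ Real.log Z := Real.log_nonneg hZ1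
    have e1 : Real.log Z ^ (73 : ℝ) = Real.log Z ^ 73 := by
      have := Real.rpow_natCast (Real.log Z) 73
      exact_mod_cast this
    rw [e1, Real.norm_of_nonneg (by positivity), Real.norm_of_nonneg (by positivity)] at hZ
    have hCp : 0 < C * 2 ^ 72 := by positivity
    calc C * 2 ^ 72 * (Real.log Z) ^ 73
        ≤ C * 2 ^ 72 * (ε' / 2 / (C * 2 ^ 72) * Z ^ (η / 2)) :=
          mul_le_mul_of_nonneg_left hZ hCp.le
      _ = ε' / 2 * Z ^ (η / 2) := by field_simp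
  have hev3 : ∀ᶠ Z : ℝ in atTop, 3 ≤ Z ^ η := (tendsto_rpow_atTop hη).eventually_ge_atTop 3
  have hev := (((hev1.and hev2).and hev3).and (eventually_ge_atTop (max Z₁ Z₂))).and
    (eventually_ge_atTop (Real.exp 1))
  obtain ⟨Z₀, hZ₀⟩ := eventually_atTop.mp hev
  refine ⟨Z₀, fun Z hZ r hr c₀ hc₀ σ hσ => ?_⟩
  obtain ⟨⟨⟨⟨c1, c2⟩, c3⟩, c4⟩, c5⟩ := hZ₀ Z hZ
  have hZ1 : Z₁ ≤ Z := (le_max_left _ _).trans c4
  have hZ2 : Z₂ ≤ Z := (le_max_right _ _).trans c4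
  have hZpos : 0 < Z := (Real.exp_pos 1).trans_le c5
  set L := Real.log Z with hL
  have hL1 : 1 ≤ L := by
    rw [hL, Real.le_log_iff_exp_le hZpos]
    exact c5
  have hL0 : 0 < L := by linarith
  set T := Z ^ (η / 2) with hT
  have hT0 : 0 < T := Real.rpow_pos_of_pos hZpos _
  have hT2 : T ^ 2 = Z ^ η := by
    rw [hT, ← Real.rpow_natCast, ← Real.rpow_mul hZpos.le]
    norm_num
  have hZη : Z ^ (1 - η) = Z / T ^ 2 := by
    rw [hT2, Real.rpow_sub hZpos, Real.rpow_one]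
  set K := ⌊Z ^ (1 - η)⌋₊ with hK
  have hKle : (K : ℝ) ≤ Z / T ^ 2 := by
    rw [← hZη]
    exact Nat.floor_le (Real.rpow_nonneg hZpos.le _)
  have hKZ : 3 * (K : ℝ) ≤ Z := by
    have h3 : 3 ≤ T ^ 2 := by rw [hT2]; exact c3
    have h4 : 3 * (K : ℝ) ≤ T ^ 2 * K := mul_le_mul_of_nonneg_right h3 (Nat.cast_nonneg _)
    have h5 : T ^ 2 * (K : ℝ) ≤ Z := by
      rw [le_div_iff₀ (by positivity)] at hKle
      linarith
    linarith
  have hKZ' : (K : ℝ) ≤ Z := by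
    have : (0 : ℝ) ≤ K := Nat.cast_nonneg _
    linarith
  have hlogK : 1 + Real.log K ≤ 2 * L := by
    rcases Nat.eq_zero_or_pos K with h | h
    · rw [h, Nat.cast_zero, Real.log_zero]
      linarith
    · have h6 : Real.log K ≤ L := Real.log_le_log (by exact_mod_cast h) hKZ'
      linarith
  have hlogK0 : 0 ≤ 1 + Real.log K := by
    have := Real.log_natCast_nonneg K
    linarith
  have hsqK : √(K : ℝ) ≤ √Z / T := by
    have h7 : √(K : ℝ) ≤ √(Z / T ^ 2) := Real.sqrt_le_sqrt hKle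
    rwa [Real.sqrt_div' _ (by positivity), Real.sqrt_sq hT0.le] at h7
  -- the function G
  set U : Finset ℤ := ({1, -1, 2, -2} : Finset ℤ) with hU
  let G : ℕ → ℝ := fun a => (∑ u ∈ U, |EU lam Z u a|) + C * (√Z * L)
  have hG : ∀ a, 0 ≤ G a := by
    intro a
    have : 0 ≤ ∑ u ∈ U, |EU lam Z u a| := Finset.sum_nonneg fun u _ => abs_nonneg _
    have h8 : 0 ≤ C * (√Z * L) := by positivity
    exact add_nonneg this h8
  have hstep1 : ∑ N ∈ (Icc 1 K).filter (fun N => Odd N ∧ ¬ IsSquare N),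
      (N.divisors.card : ℝ) ^ 3 / √(N : ℝ) * |fP r c₀ σ lam Z N| ≤
      ∑ N ∈ (Icc 1 K).filter (fun N => Odd N ∧ ¬ IsSquare N),
      (N.divisors.card : ℝ) ^ 3 / √(N : ℝ) * G (sq1 N) := by
    apply Finset.sum_le_sum
    intro N hN
    rw [Finset.mem_filter, Finset.mem_Icc] at hN
    refine mul_le_mul_of_nonneg_left ?_ (by positivity)
    have hNK : (N : ℝ) ≤ K := by exact_mod_cast hN.1.2
    exact (hX2 Z hZ1 r hr c₀ hc₀ σ hσ N hN.2.1 (by linarith)).2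
  have hstep2 := x4_split K G hG
  have hfac2 : ∑ b ∈ Icc 1 K, (b.divisors.card : ℝ) ^ 6 / b ≤ (2 * L) ^ 64 := by
    have h9 := hw1 6 K
    norm_num at h9
    exact h9.trans (pow_le_pow_left₀ hlogK0 hlogK 64)
  have hfac1 : ∑ a ∈ (Osq K).filter (fun a => a ≠ 1),
      (a.divisors.card : ℝ) ^ 3 / √(a : ℝ) * G a ≤
      4 * (Z / L ^ 65) + C * (√Z * L) * (√Z / T * (2 * L) ^ 8) := by
    have e1 : ∑ a ∈ (Osq K).filter (fun a => a ≠ 1),
        (a.divisors.card : ℝ) ^ 3 / √(a : ℝ) * G a =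
        (∑ u ∈ U, ∑ a ∈ (Osq K).filter (fun a => a ≠ 1),
          (a.divisors.card : ℝ) ^ 3 / √(a : ℝ) * |EU lam Z u a|) +
        C * (√Z * L) * ∑ a ∈ (Osq K).filter (fun a => a ≠ 1),
          (a.divisors.card : ℝ) ^ 3 / √(a : ℝ) := by
      rw [Finset.sum_comm, Finset.mul_sum, ← Finset.sum_add_distrib]
      apply Finset.sum_congr rfl
      intro a _
      simp only [G]
      rw [mul_add, Finset.mul_sum]
      ring
    rw [e1]
    apply add_le_add
    · have h10 : ∀ u ∈ U, ∑ a ∈ (Osq K).filter (fun a => a ≠ 1),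
          (a.divisors.card : ℝ) ^ 3 / √(a : ℝ) * |EU lam Z u a| ≤ Z / L ^ 65 := by
        intro u hu
        refine le_trans ?_ (hE Z hZ2 u hu)
        apply Finset.sum_le_sum_of_subset_of_nonneg
        · intro a ha
          rw [Finset.mem_filter] at ha ⊢
          exact ⟨ha.1, Or.inr ha.2⟩
        · intro a _ _
          positivity
      have h11 := Finset.sum_le_card_nsmul U _ _ h10
      have h12 : U.card = 4 := by rw [hU]; decide
      rw [h12, nsmul_eq_mul] at h11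
      exact_mod_cast h11
    · refine mul_le_mul_of_nonneg_left ?_ (by positivity)
      refine (x4_dsum hw1 K).trans ?_
      exact mul_le_mul hsqK (pow_le_pow_left₀ hlogK0 hlogK 8) (by positivity) (by positivity)
  have hfac1' : 0 ≤ 4 * (Z / L ^ 65) + C * (√Z * L) * (√Z / T * (2 * L) ^ 8) := by positivity
  have htot : ∑ N ∈ (Icc 1 K).filter (fun N => Odd N ∧ ¬ IsSquare N),
      (N.divisors.card : ℝ) ^ 3 / √(N : ℝ) * |fP r c₀ σ lam Z N| ≤
      (4 * (Z / L ^ 65) + C * (√Z * L) * (√Z / T * (2 * L) ^ 8)) * (2 * L) ^ 64 := by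
    refine (hstep1.trans hstep2).trans ?_
    exact mul_le_mul hfac1 hfac2 (Finset.sum_nonneg fun b _ => by positivity) hfac1'
  refine htot.trans ?_
  have hZs : √Z * √Z = Z := Real.mul_self_sqrt hZpos.le
  have p1 : 4 * (Z / L ^ 65) * (2 * L) ^ 64 ≤ ε' / 2 * Z := by
    have e : 4 * (Z / L ^ 65) * (2 * L) ^ 64 = 2 ^ 66 * Z / L := by
      field_simp
      ring
    rw [e, div_le_iff₀ hL0]
    rw [div_le_iff₀ hε'] at c1
    nlinarith [mul_le_mul_of_nonneg_right c1 hZpos.le]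
  have p2 : C * (√Z * L) * (√Z / T * (2 * L) ^ 8) * (2 * L) ^ 64 ≤ ε' / 2 * Z := by
    have e : C * (√Z * L) * (√Z / T * (2 * L) ^ 8) * (2 * L) ^ 64 =
        (C * 2 ^ 72 * L ^ 73) * (√Z * √Z) / T := by
      ring
    rw [e, hZs, div_le_iff₀ hT0]
    calc C * 2 ^ 72 * L ^ 73 * Z ≤ ε' / 2 * T * Z := mul_le_mul_of_nonneg_right c2 hZpos.le
      _ = ε' / 2 * Z * T := by ring
  calc (4 * (Z / L ^ 65) + C * (√Z * L) * (√Z / T * (2 * L) ^ 8)) * (2 * L) ^ 64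
      = 4 * (Z / L ^ 65) * (2 * L) ^ 64 +
        C * (√Z * L) * (√Z / T * (2 * L) ^ 8) * (2 * L) ^ 64 := by ring
    _ ≤ ε' / 2 * Z + ε' / 2 * Z := add_le_add p1 p2
    _ = ε' * Z := by ring

end Pool.Agent.MP0016c7.PC
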