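import Pool.Agent.Lib.MP_0016c7_nt.PC.X.StmX
import Pool.Agent.Lib.MP_0016c7_nt.PC.W.StmW

set_option autoImplicit false

/-!
Block [X], piece X5: the size of a quadruple sum.
-/

open Finset MeasureTheory Filter Topology
open scoped Real ContDiff

namespace Pool.Agent.MP0016c7.PC

open Pool.Agent.MP0016c7.Rz

private theorem x5_sum (M : ℕ) (B : ℝ) (G H : ℕ → ℕ → ℕ → ℕ → ℝ)
    (h : ∀ n₁ ∈ Icc 1 M, ∀ l₁ ∈ Icc 1 M, ∀ n₂ ∈ Icc 1 M, ∀ l₂ ∈ Icc 1 M,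
      |G n₁ l₁ n₂ l₂| ≤ B * H n₁ l₁ n₂ l₂) :
    |∑ n₁ ∈ Icc 1 M, ∑ l₁ ∈ Icc 1 M, ∑ n₂ ∈ Icc 1 M, ∑ l₂ ∈ Icc 1 M, G n₁ l₁ n₂ l₂| ≤
      B * ∑ n₁ ∈ Icc 1 M, ∑ l₁ ∈ Icc 1 M, ∑ n₂ ∈ Icc 1 M, ∑ l₂ ∈ Icc 1 M, H n₁ l₁ n₂ l₂ := by
  have h1 : |∑ n₁ ∈ Icc 1 M, ∑ l₁ ∈ Icc 1 M, ∑ n₂ ∈ Icc 1 M, ∑ l₂ ∈ Icc 1 M, G n₁ l₁ n₂ l₂| ≤
      ∑ n₁ ∈ Icc 1 M, ∑ l₁ ∈ Icc 1 M, ∑ n₂ ∈ Icc 1 M, ∑ l₂ ∈ Icc 1 M,
        B * H n₁ l₁ n₂ l₂ := by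
    refine (Finset.abs_sum_le_sum_abs _ _).trans (Finset.sum_le_sum fun n₁ hn₁ => ?_)
    refine (Finset.abs_sum_le_sum_abs _ _).trans (Finset.sum_le_sum fun l₁ hl₁ => ?_)
    refine (Finset.abs_sum_le_sum_abs _ _).trans (Finset.sum_le_sum fun n₂ hn₂ => ?_)
    refine (Finset.abs_sum_le_sum_abs _ _).trans (Finset.sum_le_sum fun l₂ hl₂ => ?_)
    exact h n₁ hn₁ l₁ hl₁ n₂ hn₂ l₂ hl₂
  refine h1.trans (le_of_eq ?_)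
  simp only [← Finset.mul_sum]

private theorem x5_dvd {a b : ℕ} (h : a ∣ b) (hb : b ≠ 0) :
    (a.divisors.card : ℝ) ≤ b.divisors.card := by
  exact_mod_cast card_le_card (Nat.divisors_subset_of_dvd hb h)

private theorem x5_push (h2 : S_W2) (M : ℕ) (H : ℕ → ℝ) (hH : ∀ N, 0 ≤ H N) :
    ∑ n₁ ∈ Icc 1 M, ∑ l₁ ∈ Icc 1 M, ∑ n₂ ∈ Icc 1 M, ∑ l₂ ∈ Icc 1 M, H (n₁ * l₁ * n₂ * l₂) ≤
      ∑ N ∈ Icc 1 ((M ^ 2) ^ 2), (N.divisors.card : ℝ) ^ 3 * H N := by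
  calc ∑ n₁ ∈ Icc 1 M, ∑ l₁ ∈ Icc 1 M, ∑ n₂ ∈ Icc 1 M, ∑ l₂ ∈ Icc 1 M, H (n₁ * l₁ * n₂ * l₂)
      ≤ ∑ n₁ ∈ Icc 1 M, ∑ l₁ ∈ Icc 1 M,
          ∑ v ∈ Icc 1 (M ^ 2), (v.divisors.card : ℝ) * H (n₁ * l₁ * v) := by
        refine sum_le_sum fun n₁ _ => sum_le_sum fun l₁ _ => ?_
        have h := h2 M (fun N => H (n₁ * l₁ * N)) (fun N => hH _)
        refine le_trans (le_of_eq ?_) h
        refine sum_congr rfl fun n₂ _ => sum_congr rfl fun l₂ _ => ?_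
        rw [mul_assoc (n₁ * l₁)]
    _ ≤ ∑ u ∈ Icc 1 (M ^ 2), (u.divisors.card : ℝ) *
          ∑ v ∈ Icc 1 (M ^ 2), (v.divisors.card : ℝ) * H (u * v) :=
        h2 M (fun u => ∑ v ∈ Icc 1 (M ^ 2), (v.divisors.card : ℝ) * H (u * v))
          (fun u => sum_nonneg fun v _ => mul_nonneg (Nat.cast_nonneg _) (hH _))
    _ ≤ ∑ u ∈ Icc 1 (M ^ 2), ∑ v ∈ Icc 1 (M ^ 2),
          ((u * v).divisors.card : ℝ) ^ 2 * H (u * v) := by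
        refine sum_le_sum fun u hu => ?_
        rw [mul_sum]
        refine sum_le_sum fun v hv => ?_
        have hu1 := (mem_Icc.1 hu).1
        have hv1 := (mem_Icc.1 hv).1
        have hne : u * v ≠ 0 := Nat.mul_ne_zero (by omega) (by omega)
        have k1 := x5_dvd (Dvd.intro v rfl) hne
        have k2 := x5_dvd (Dvd.intro_left u rfl) hne
        rw [← mul_assoc, sq]
        exact mul_le_mul_of_nonneg_right (mul_le_mul k1 k2 (Nat.cast_nonneg _)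
          (Nat.cast_nonneg _)) (hH _)
    _ ≤ ∑ N ∈ Icc 1 ((M ^ 2) ^ 2), (N.divisors.card : ℝ) *
          ((N.divisors.card : ℝ) ^ 2 * H N) :=
        h2 (M ^ 2) (fun N => (N.divisors.card : ℝ) ^ 2 * H N)
          (fun N => mul_nonneg (by positivity) (hH _))
    _ = ∑ N ∈ Icc 1 ((M ^ 2) ^ 2), (N.divisors.card : ℝ) ^ 3 * H N := by
        refine sum_congr rfl fun N _ => ?_
        ring

theorem p_X5 (hw2 : S_W2) : S_X5 := by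
  intro W₁ W₂ C₁ C₂ x₁ x₂ M g hW₁ hW₂ hx₁ hx₂ hs₁ hs₂
  have hC₁ : 0 ≤ C₁ := (abs_nonneg _).trans (hW₁ 0 0)
  have hC₂ : 0 ≤ C₂ := (abs_nonneg _).trans (hW₂ 0 0)
  obtain ⟨H, hH⟩ : ∃ H : ℕ → ℝ, H = fun N => if N ≤ ⌊x₁ * x₂⌋₊ ∧ Odd N then |g N| / √(N : ℝ) else 0 :=
    ⟨_, rfl⟩
  have hH0 : ∀ N, 0 ≤ H N := by
    intro N
    rw [hH]
    dsimp only
    split_ifs
    · positivity
    · exact le_rfl
  have hmain : |quad W₁ W₂ 1 M g| ≤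
      (C₁ * C₂) * ∑ n₁ ∈ Icc 1 M, ∑ l₁ ∈ Icc 1 M, ∑ n₂ ∈ Icc 1 M, ∑ l₂ ∈ Icc 1 M,
        H (n₁ * l₁ * n₂ * l₂) := by
    unfold quad
    refine x5_sum M _ _ (fun n₁ l₁ n₂ l₂ => H (n₁ * l₁ * n₂ * l₂)) ?_
    intro n₁ hn₁ l₁ hl₁ n₂ hn₂ l₂ hl₂
    rw [Finset.mem_Icc] at hn₁ hl₁ hn₂ hl₂
    have hR : 0 ≤ C₁ * C₂ * H (n₁ * l₁ * n₂ * l₂) := mul_nonneg (mul_nonneg hC₁ hC₂) (hH0 _)
    split_ifs with hcop
    swap
    · rw [abs_zero]; exact hR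
    by_cases hz1 : x₁ < (l₁ : ℝ) * n₁
    · rw [hs₁ l₁ n₁ hz1]
      simpa using hR
    by_cases hz2 : x₂ < (l₂ : ℝ) * n₂
    · rw [hs₂ l₂ n₂ hz2]
      simpa using hR
    rw [not_lt] at hz1 hz2
    obtain ⟨N, hN⟩ : ∃ N : ℕ, N = n₁ * l₁ * n₂ * l₂ := ⟨_, rfl⟩
    rw [← hN] at hcop hR ⊢
    have hNr : (N : ℝ) = (n₁ : ℝ) * l₁ * n₂ * l₂ := by rw [hN]; push_cast; ring
    have hNX : N ≤ ⌊x₁ * x₂⌋₊ := by
      apply Nat.le_floor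
      calc (N : ℝ) = ((l₁ : ℝ) * n₁) * ((l₂ : ℝ) * n₂) := by rw [hNr]; ring
        _ ≤ x₁ * x₂ := mul_le_mul hz1 hz2 (by positivity) hx₁
    have hNodd : Odd N := by
      have h2 : Nat.Coprime N 2 := by simpa using hcop
      exact Nat.coprime_two_right.mp h2
    have hHN : H N = |g N| / √(N : ℝ) := by
      rw [hH]
      dsimp only
      rw [if_pos ⟨hNX, hNodd⟩]
    have hmu : ∀ l : ℕ, |(ArithmeticFunction.moebius l : ℝ)| ≤ 1 := by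
      intro l
      have := ArithmeticFunction.abs_moebius_le_one (n := l)
      exact_mod_cast this
    have e1 : |(ArithmeticFunction.moebius l₁ : ℝ) * (ArithmeticFunction.moebius l₂ : ℝ) *
        W₁ l₁ n₁ * W₂ l₂ n₂ / √(N : ℝ) * g N| =
        (|(ArithmeticFunction.moebius l₁ : ℝ)| * |(ArithmeticFunction.moebius l₂ : ℝ)|) *
        (|W₁ l₁ n₁| * |W₂ l₂ n₂|) * (|g N| / √(N : ℝ)) := by
      rw [abs_mul, abs_div, abs_mul, abs_mul, abs_mul, abs_of_nonneg (Real.sqrt_nonneg _)]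
      ring
    rw [e1, hHN]
    have h1 : |(ArithmeticFunction.moebius l₁ : ℝ)| * |(ArithmeticFunction.moebius l₂ : ℝ)| ≤ 1 := by
      have := mul_le_mul (hmu l₁) (hmu l₂) (abs_nonneg _) zero_le_one
      simpa using this
    have h2 : |W₁ l₁ n₁| * |W₂ l₂ n₂| ≤ C₁ * C₂ :=
      mul_le_mul (hW₁ l₁ n₁) (hW₂ l₂ n₂) (abs_nonneg _) hC₁
    calc _ ≤ 1 * (C₁ * C₂) * (|g N| / √(N : ℝ)) := by gcongr
      _ = C₁ * C₂ * (|g N| / √(N : ℝ)) := by rw [one_mul]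
  refine hmain.trans ?_
  refine mul_le_mul_of_nonneg_left ?_ (mul_nonneg hC₁ hC₂)
  refine (x5_push hw2 M H hH0).trans ?_
  have hz : ∀ N ∈ Icc 1 ((M ^ 2) ^ 2), N ∉ (Icc 1 ⌊x₁ * x₂⌋₊).filter (fun N => Odd N) →
      (N.divisors.card : ℝ) ^ 3 * H N = 0 := by
    intro N hN hN2
    have : H N = 0 := by
      rw [hH]
      dsimp only
      rw [if_neg]
      rintro ⟨h1, h2⟩
      exact hN2 (mem_filter.mpr ⟨mem_Icc.mpr ⟨(mem_Icc.mp hN).1, h1⟩, h2⟩)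
    rw [this, mul_zero]
  calc ∑ N ∈ Icc 1 ((M ^ 2) ^ 2), (N.divisors.card : ℝ) ^ 3 * H N
      = ∑ N ∈ (Icc 1 ((M ^ 2) ^ 2)) ∩ (Icc 1 ⌊x₁ * x₂⌋₊).filter (fun N => Odd N),
          (N.divisors.card : ℝ) ^ 3 * H N := by
        symm
        apply sum_subset inter_subset_left
        intro N hN hN2
        apply hz N hN
        intro h
        exact hN2 (mem_inter.mpr ⟨hN, h⟩)
    _ ≤ ∑ N ∈ (Icc 1 ⌊x₁ * x₂⌋₊).filter (fun N => Odd N), (N.divisors.card : ℝ) ^ 3 * H N := by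
        apply sum_le_sum_of_subset_of_nonneg inter_subset_right
        intro N _ _
        exact mul_nonneg (by positivity) (hH0 _)
    _ = ∑ N ∈ (Icc 1 ⌊x₁ * x₂⌋₊).filter (fun N => Odd N),
          (N.divisors.card : ℝ) ^ 3 / √(N : ℝ) * |g N| := by
        refine sum_congr rfl fun N hN => ?_
        rw [mem_filter, mem_Icc] at hN
        rw [hH]
        dsimp only
        rw [if_pos ⟨hN.1.2, hN.2⟩]
        ring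

end Pool.Agent.MP0016c7.PC
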