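import Mathlib
import Pool.Agent.Lib.MP_0016c7_nt.PC.X.StmX

set_option autoImplicit false

open Finset MeasureTheory Filter Topology
open scoped Real ContDiff

namespace Pool.Agent.MP0016c7.PC

open Pool.Agent.MP0016c7.Rz
open Pool.Agent.BVall (OmL)

private theorem x7_quad_lin (W₁ W₂ : ℕ → ℕ → ℝ) (r K : ℕ) (f g : ℕ → ℝ) (a : ℝ) :
    quad W₁ W₂ r K (fun N => f N + a * g N) = quad W₁ W₂ r K f + a * quad W₁ W₂ r K g := by
  unfold quad
  simp only [mul_sum, ← sum_add_distrib]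
  refine sum_congr rfl fun n₁ _ => sum_congr rfl fun l₁ _ => sum_congr rfl fun n₂ _ =>
    sum_congr rfl fun l₂ _ => ?_
  split_ifs
  · ring
  · ring

private theorem x7_three (η Z : ℝ) (hη : 0 < η) (hZ : (3 : ℝ) ^ (1 / η) ≤ Z) (hZ1 : 1 ≤ Z) :
    3 * Z ^ (1 - η) ≤ Z := by
  have hZ0 : 0 < Z := by linarith
  have h1 : (3 : ℝ) ≤ Z ^ η := by
    have h2 : ((3 : ℝ) ^ (1 / η)) ^ η ≤ Z ^ η := by
      refine Real.rpow_le_rpow (by positivity) hZ hη.le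
    rw [← Real.rpow_mul (by norm_num), one_div, inv_mul_cancel₀ hη.ne', Real.rpow_one] at h2
    exact h2
  have h3 : Z ^ η * Z ^ (1 - η) = Z := by
    rw [← Real.rpow_add hZ0]
    simp
  have h4 : 0 ≤ Z ^ (1 - η) := by positivity
  calc 3 * Z ^ (1 - η) ≤ Z ^ η * Z ^ (1 - η) := by gcongr
    _ = Z := h3

theorem p_X7 (h2 : S_X2) (h4 : S_X4) (h5 : S_X5) (h6 : S_X6) : S_X7 := by
  intro lam hlam η hη hη1 ε' hε'
  obtain ⟨C, Z₂, hC, hX2⟩ := h2 lam hlam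
  obtain ⟨Z₄, hX4⟩ := h4 lam hlam η hη hη1 ε' hε'
  refine ⟨max (max Z₂ Z₄) (max ((3 : ℝ) ^ (1 / η)) 1), ?_⟩
  intro Z hZ r hr c₀ hc₀ σ hσ W₁ W₂ C₁ C₂ x₁ x₂ M hW₁ hW₂ hx₁ hx₂ hxx hs₁ hs₂
  have hZ2 : Z₂ ≤ Z := le_trans (le_trans (le_max_left _ _) (le_max_left _ _)) hZ
  have hZ4 : Z₄ ≤ Z := le_trans (le_trans (le_max_right _ _) (le_max_left _ _)) hZ
  have hZ3 : (3 : ℝ) ^ (1 / η) ≤ Z := le_trans (le_trans (le_max_left _ _) (le_max_right _ _)) hZ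
  have hZ1 : 1 ≤ Z := le_trans (le_trans (le_max_right _ _) (le_max_right _ _)) hZ
  have hC₁ : 0 ≤ C₁ := le_trans (abs_nonneg _) (hW₁ 0 0)
  have hC₂ : 0 ≤ C₂ := le_trans (abs_nonneg _) (hW₂ 0 0)
  have h3Z := x7_three η Z hη hZ3 hZ1
  set P : ℝ := psiR (fun p => p % 8 = r) lam Z (fun _ => 1) with hP
  set g : ℕ → ℝ := fun N => fP r c₀ σ lam Z N + (-P) * isq N with hg
  have hdiff : psiR (fun p => p % 8 = r) lam Z (fun p => LW W₁ σ M (c₀ * p) * LW W₂ σ M (c₀ * p)) -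
      P * quad W₁ W₂ 1 M isq = quad W₁ W₂ 1 M g := by
    rw [h6, hg, x7_quad_lin]
    ring
  rw [hdiff]
  refine (h5 W₁ W₂ C₁ C₂ x₁ x₂ M g hW₁ hW₂ hx₁ hx₂ hs₁ hs₂).trans ?_
  refine mul_le_mul_of_nonneg_left ?_ (mul_nonneg hC₁ hC₂)
  refine le_trans ?_ (hX4 Z hZ4 r hr c₀ hc₀ σ hσ)
  have hnn : ∀ N : ℕ, 0 ≤ (N.divisors.card : ℝ) ^ 3 / √(N : ℝ) * |g N| := fun N => by positivity
  -- enlarge the range
  have e1 : ∑ N ∈ (Icc 1 ⌊x₁ * x₂⌋₊).filter (fun N => Odd N),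
      (N.divisors.card : ℝ) ^ 3 / √(N : ℝ) * |g N| ≤
      ∑ N ∈ (Icc 1 ⌊Z ^ (1 - η)⌋₊).filter (fun N => Odd N),
      (N.divisors.card : ℝ) ^ 3 / √(N : ℝ) * |g N| := by
    refine sum_le_sum_of_subset_of_nonneg ?_ (fun N _ _ => hnn N)
    refine filter_subset_filter _ (Icc_subset_Icc le_rfl (Nat.floor_le_floor hxx))
  refine e1.trans (le_of_eq ?_)
  rw [sum_filter, sum_filter]
  refine sum_congr rfl fun N hN => ?_
  obtain ⟨hN1, hN2⟩ := mem_Icc.1 hN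
  have hNZ : 3 * (N : ℝ) ≤ Z := by
    have : (N : ℝ) ≤ Z ^ (1 - η) := by
      refine le_trans ?_ (Nat.floor_le (by positivity))
      exact_mod_cast hN2
    linarith
  by_cases ho : Odd N
  · rw [if_pos ho]
    by_cases hs : IsSquare N
    · rw [if_neg (fun h => h.2 hs)]
      have h := (hX2 Z hZ2 r hr c₀ hc₀ σ hσ N ho hNZ).1 hs
      have hi : isq N = 1 := by unfold isq; rw [if_pos hs]
      have : g N = 0 := by
        rw [hg]
        simp only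
        rw [h, hi, hP]
        ring
      rw [this]; simp
    · rw [if_pos ⟨ho, hs⟩]
      have hi : isq N = 0 := by unfold isq; rw [if_neg hs]
      have : g N = fP r c₀ σ lam Z N := by
        rw [hg]
        simp only
        rw [hi]
        ring
      rw [this]
  · rw [if_neg ho, if_neg (fun h => ho h.1)]

end Pool.Agent.MP0016c7.PC
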