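import Mathlib
import Pool.Agent.Lib.MP_0016c7_nt.PC.X.StmX2
import Pool.Agent.Lib.MP_0016c7_nt.Rz.Sm1
import Pool.Agent.Lib.MP_0016c7_nt.Rz.LipWt

set_option autoImplicit false

open Finset MeasureTheory Filter Topology
open scoped Real ContDiff

namespace Pool.Agent.MP0016c7.PC

open Pool.Agent.MP0016c7.Rz
open Pool.Agent.BVall (OmL)

private theorem x8_tri (u : ℝ) : 0 ≤ Pool.Agent.MP89da58.tri u := le_max_left _ _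

private theorem x8_OmL (lam : ℝ) {Z : ℝ} (hZ : 0 ≤ Z) (n : ℕ) : 0 ≤ OmL lam Z n :=
  mul_nonneg (Real.rpow_nonneg (div_nonneg hZ (Nat.cast_nonneg n)) _) (x8_tri _)

private theorem x8_psi_diff (R : ℕ → Prop) (lam : ℝ) {Z : ℝ} (hZ : 0 ≤ Z) (g g' : ℕ → ℝ) (e : ℝ)
    (h : ∀ p, |g p - g' p| ≤ e) :
    |psiR R lam Z g - psiR R lam Z g'| ≤ e * psiR R lam Z (fun _ => 1) := by
  classical
  unfold psiR
  rw [← sum_sub_distrib, mul_sum]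
  refine (abs_sum_le_sum_abs _ _).trans (sum_le_sum fun p hp => ?_)
  have hp1 : 1 ≤ p := (mem_Icc.1 (mem_filter.1 hp).1).1
  have hw : 0 ≤ Real.log p * OmL lam Z p :=
    mul_nonneg (Real.log_nonneg (by exact_mod_cast hp1)) (x8_OmL lam hZ p)
  rw [← mul_sub, abs_mul, abs_of_nonneg hw, mul_one, mul_comm e]
  exact mul_le_mul_of_nonneg_left (h p) hw

private theorem x8_psi_one (R : ℕ → Prop) (lam : ℝ) {Z C : ℝ} (hZ : 0 ≤ Z)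
    (h : ∑ p ∈ (Icc 1 ⌊3 * Z⌋₊).filter (fun p => p.Prime), Real.log p * OmL lam Z p ≤ C * Z) :
    0 ≤ psiR R lam Z (fun _ => 1) ∧ psiR R lam Z (fun _ => 1) ≤ C * Z := by
  classical
  have hw : ∀ p ∈ Icc 1 ⌊3 * Z⌋₊, 0 ≤ Real.log p * OmL lam Z p := by
    intro p hp
    have hp1 : 1 ≤ p := (mem_Icc.1 hp).1
    exact mul_nonneg (Real.log_nonneg (by exact_mod_cast hp1)) (x8_OmL lam hZ p)
  constructor
  · unfold psiR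
    refine sum_nonneg fun p hp => ?_
    rw [mul_one]
    exact hw p (mem_filter.1 hp).1
  · refine le_trans ?_ h
    unfold psiR
    simp only [mul_one]
    refine sum_le_sum_of_subset_of_nonneg ?_ (fun p hp _ => hw p (mem_filter.1 hp).1)
    intro p hp
    rw [mem_filter] at hp ⊢
    exact ⟨hp.1, hp.2.1⟩

private theorem x8_Wt_zero (a₀ : ℝ) (ρ h : ℝ → ℝ) (X θ δ Y : ℝ) (hX : 1 < X) (hδ : 0 < δ)
    (l n : ℕ) (hln : X ^ (Y + θ + 2 * δ) < (l : ℝ) * n) : Wt a₀ ρ h X θ δ Y l n = 0 := by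
  have hX0 : 0 < X := by linarith
  have hL : 0 < Real.log X := Real.log_pos hX
  have hpos : 0 < (l : ℝ) * n := lt_trans (Real.rpow_pos_of_pos hX0 _) hln
  have hl : (l : ℝ) ≠ 0 := by
    intro h0
    rw [h0, zero_mul] at hpos
    exact lt_irrefl _ hpos
  have hn : (n : ℝ) ≠ 0 := by
    intro h0
    rw [h0, mul_zero] at hpos
    exact lt_irrefl _ hpos
  have h1 : (Y + θ + 2 * δ) * Real.log X < Real.log l + Real.log n := by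
    rw [← Real.log_mul hl hn, ← Real.log_rpow hX0]
    exact Real.log_lt_log (Real.rpow_pos_of_pos hX0 _) hln
  have h2 : 1 ≤ ((Real.log n + Real.log l) / Real.log X - Y - θ - δ) / δ := by
    rw [le_div_iff₀ hδ]
    have : Y + θ + 2 * δ ≤ (Real.log n + Real.log l) / Real.log X := by
      rw [le_div_iff₀ hL]
      linarith
    linarith
  unfold Wt
  rw [Real.smoothTransition.one_of_one_le h2]
  ring

private theorem x8_height (X Z a b η : ℝ) (hX : 0 < X) (hZ : 0 < Z)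
    (h : (a + b) * Real.log X ≤ (1 - η) * Real.log Z) : X ^ a * X ^ b ≤ Z ^ (1 - η) := by
  rw [← Real.rpow_add hX, Real.rpow_def_of_pos hX, Real.rpow_def_of_pos hZ, Real.exp_le_exp]
  linarith

private theorem x8_prod (y₁ y₂ t₁ t₂ X : ℝ) (hX : 1 ≤ X) (h1 : |y₁| ≤ X ^ 20)
    (h2 : |t₂| ≤ X ^ 20) (h3 : |y₁ - t₁| ≤ X ^ (-30 : ℝ)) (h4 : |y₂ - t₂| ≤ X ^ (-30 : ℝ)) :
    |y₁ * y₂ - t₁ * t₂| ≤ 2 * X⁻¹ := by
  have hX0 : 0 < X := by linarith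
  have e1 : y₁ * y₂ - t₁ * t₂ = y₁ * (y₂ - t₂) + t₂ * (y₁ - t₁) := by ring
  have e2 : X ^ 20 * X ^ (-30 : ℝ) ≤ X⁻¹ := by
    have : X ^ (20 : ℕ) = X ^ (20 : ℝ) := by
      rw [← Real.rpow_natCast]
      norm_num
    rw [this, ← Real.rpow_add hX0, ← Real.rpow_neg_one]
    exact Real.rpow_le_rpow_of_exponent_le hX (by norm_num)
  have e3 : |y₁ * (y₂ - t₂)| ≤ X ^ 20 * X ^ (-30 : ℝ) := by
    rw [abs_mul]
    exact mul_le_mul h1 h4 (abs_nonneg _) (by positivity)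
  have e4 : |t₂ * (y₁ - t₁)| ≤ X ^ 20 * X ^ (-30 : ℝ) := by
    rw [abs_mul]
    exact mul_le_mul h2 h3 (abs_nonneg _) (by positivity)
  rw [e1]
  refine (abs_add_le _ _).trans ?_
  linarith

private theorem x8_combine (A B' P Q D S ε' Z a b c d : ℝ) (h1 : |A - B'| ≤ a)
    (h2 : |B' - P * Q| ≤ b) (h3 : |P| * |Q - D| ≤ c) (h4 : |D| * |P - S| ≤ d)
    (h : a + b + c + d ≤ ε' * Z) : |A - S * D| ≤ ε' * Z := by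
  have e : A - S * D = (A - B') + (B' - P * Q) + P * (Q - D) + D * (P - S) := by ring
  rw [e]
  refine (abs_add_le _ _).trans ?_
  have h5 := abs_add_le ((A - B') + (B' - P * Q)) (P * (Q - D))
  have h6 := abs_add_le (A - B') (B' - P * Q)
  rw [← abs_mul] at h3 h4
  linarith

theorem p_X8 (h1 : S_X1) (h3 : S_X3) (h7 : S_X7) (hc : S_Xc) (hD : JF_quadD) : S_X8 := by
  intro lam hlam θ₁ θ₂ δ hθ₁ hθ₂ hδ hδ4 h13 h23 η hη hη1 r hr c₀ hc₀ σ hσ a₀ ha₀ ρ₁ ρ₂ h₁ h₂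
    hρ₁ hρ₂ hh₁ hh₂ ε' hε'
  obtain ⟨C, Z₁, hC, hX1⟩ := h1 lam hlam
  obtain ⟨C₁, X₁, hC₁, hL₁⟩ := lipW_Wt θ₁ δ hθ₁ hδ h13 a₀ ha₀ hρ₁ hh₁
  obtain ⟨C₂, X₂, hC₂, hL₂⟩ := lipW_Wt θ₂ δ hθ₂ hδ h23 a₀ ha₀ hρ₂ hh₂
  obtain ⟨X₃, hT₁⟩ := ytil_trunc hδ hθ₁ h13 hρ₁ hh₁ a₀ ha₀ σ
  obtain ⟨X₄, hT₂⟩ := ytil_trunc hδ hθ₂ h23 hρ₂ hh₂ a₀ ha₀ σ
  obtain ⟨⟨B, hB, hBd⟩, -⟩ := hc δ θ₁ θ₂ hδ hδ4 ρ₁ ρ₂ h₁ h₂ hρ₁ hρ₂ hh₁ hh₂
  have hε1 : 0 < ε' / (4 * (C₁ * C₂)) := by positivity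
  have hε2 : 0 < ε' / (4 * C) := by positivity
  have hε3 : 0 < ε' / (4 * B) := by positivity
  obtain ⟨Z₇, hX7⟩ := h7 lam hlam η hη hη1 _ hε1
  obtain ⟨X₅, hQ⟩ := hD δ θ₁ θ₂ hδ hδ4 hθ₁ hθ₂ h13 h23 a₀ ha₀ ρ₁ ρ₂ h₁ h₂ hρ₁ hρ₂ hh₁ hh₂ _ hε2
  obtain ⟨Z₃, hX3⟩ := h3 lam hlam r hr _ hε3
  refine ⟨max (max (max Z₁ Z₇) (max Z₃ 2)) (max (max (max X₁ X₂) (max X₃ X₄))
    (max X₅ (8 * C / ε'))), ?_⟩
  intro X hX Z hXZ Y₁ hY₁ Y₂ hY₂ hht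
  simp only [max_le_iff] at hX
  obtain ⟨⟨⟨a1, a2⟩, a3, a4⟩, ⟨⟨a5, a6⟩, a7, a8⟩, a9, a10⟩ := hX
  have hX1' : 1 < X := by linarith
  have hX0 : 0 < X := by linarith
  have hZ0 : 0 < Z := by linarith
  obtain ⟨-, -, hm⟩ := hX1 Z (a1.trans hXZ)
  obtain ⟨hP0, hP1⟩ := x8_psi_one (fun p => p % 8 = r) lam hZ0.le hm
  have hP3 := hX3 Z (a3.trans hXZ)
  have hl₁ := hL₁ X a5 Y₁ hY₁
  have hl₂ := hL₂ X a6 Y₂ hY₂
  have hq := hQ X a9 Y₁ hY₁ Y₂ hY₂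
  have hb := hBd Y₁ hY₁ Y₂ hY₂
  have h7' := hX7 Z (a2.trans hXZ) r hr c₀ hc₀ σ hσ (Wt a₀ ρ₁ h₁ X θ₁ δ Y₁)
    (Wt a₀ ρ₂ h₂ X θ₂ δ Y₂) C₁ C₂ (X ^ (Y₁ + θ₁ + 2 * δ)) (X ^ (Y₂ + θ₂ + 2 * δ)) ⌊X ^ 2⌋₊
    hl₁.bd hl₂.bd (by positivity) (by positivity)
    (x8_height X Z _ _ η hX0 hZ0 hht)
    (x8_Wt_zero a₀ ρ₁ h₁ X θ₁ δ Y₁ hX1' hδ) (x8_Wt_zero a₀ ρ₂ h₂ X θ₂ δ Y₂ hX1' hδ)
  have hy := x8_psi_diff (fun p => p % 8 = r) lam hZ0.le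
    (fun p => ytil a₀ σ ρ₁ h₁ X (c₀ * p) Y₁ * ytil a₀ σ ρ₂ h₂ X (c₀ * p) Y₂)
    (fun p => LW (Wt a₀ ρ₁ h₁ X θ₁ δ Y₁) σ ⌊X ^ 2⌋₊ (c₀ * p) *
      LW (Wt a₀ ρ₂ h₂ X θ₂ δ Y₂) σ ⌊X ^ 2⌋₊ (c₀ * p)) (2 * X⁻¹) (by
      intro p
      obtain ⟨b1, -, b3⟩ := hT₁ X a7 Y₁ hY₁ (c₀ * p)
      obtain ⟨-, b5, b6⟩ := hT₂ X a8 Y₂ hY₂ (c₀ * p)
      exact x8_prod _ _ _ _ X hX1'.le b1 b5 b3 b6)
  refine x8_combine _ _ _ _ _ _ ε' Z _ _ (C * Z * (ε' / (4 * C))) (B * (ε' / (4 * B) * Z))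
    hy h7' ?_ ?_ ?_
  · rw [abs_of_nonneg hP0]
    exact mul_le_mul hP1 hq (abs_nonneg _) (by positivity)
  · exact mul_le_mul hb hP3 (abs_nonneg _) (by positivity)
  · have e1 : 2 * X⁻¹ * psiR (fun p => p % 8 = r) lam Z (fun _ => 1) ≤ ε' * Z / 4 := by
      have : 2 * X⁻¹ * psiR (fun p => p % 8 = r) lam Z (fun _ => 1) ≤ 2 * X⁻¹ * (C * Z) :=
        mul_le_mul_of_nonneg_left hP1 (by positivity)
      refine this.trans ?_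
      have h8 : 8 * C ≤ X * ε' := by
        rw [div_le_iff₀ hε'] at a10
        exact a10
      have h9 : 2 * X⁻¹ * (C * Z) = (8 * C) * (X⁻¹ * Z / 4) := by ring
      rw [h9]
      have h10 : 0 ≤ X⁻¹ * Z / 4 := by positivity
      refine (mul_le_mul_of_nonneg_right h8 h10).trans (le_of_eq ?_)
      field_simp
    have e2 : C₁ * C₂ * (ε' / (4 * (C₁ * C₂)) * Z) = ε' * Z / 4 := by
      field_simp
    have e3 : C * Z * (ε' / (4 * C)) = ε' * Z / 4 := by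
      field_simp
    have e4 : B * (ε' / (4 * B) * Z) = ε' * Z / 4 := by
      field_simp
    rw [e2, e3, e4]
    linarith

end Pool.Agent.MP0016c7.PC
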