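import Mathlib
import Pool.Agent.Lib.MP_0016c7_nt.PC.X.StmX2
import Pool.Agent.Lib.MP_0016c7_nt.Rz.Sm1
import Pool.Agent.Lib.MP_0016c7_nt.Rz.LipWt
import Pool.Agent.Lib.MP_0016c7_nt.CdlPnt

set_option autoImplicit false

/-!
Piece X9: first moment of `ytil` over the primes of a class.
-/

open Finset MeasureTheory Filter Topology
open scoped Real ContDiff

namespace Pool.Agent.MP0016c7.PC

open Pool.Agent.MP0016c7.Rz
open Pool.Agent.BVall (OmL)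

private lemma x9_LW_one (σ : ℤ) {M : ℕ} (hM : 1 ≤ M) (d : ℕ) : LW W1 σ M d = 1 := by
  unfold LW
  have h1 : (1 : ℕ) ∈ Icc 1 M := Finset.mem_Icc.2 ⟨le_rfl, hM⟩
  rw [Finset.sum_eq_single_of_mem 1 h1, Finset.sum_eq_single_of_mem 1 h1]
  · have h2 : jr (2 * σ * (d : ℤ)) (1 * 1) = 1 := by
      unfold jr
      rw [if_pos (by norm_num)]
      simp
    unfold W1
    rw [h2]
    simp
  · intro l _ hl
    unfold W1
    rw [if_neg (by tauto)]
    ring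
  · intro n _ hn
    apply Finset.sum_eq_zero
    intro l _
    unfold W1
    rw [if_neg (by tauto)]
    ring

private lemma x9_Wt_supp (a₀ : ℝ) (ρ h : ℝ → ℝ) {X θ δ Y : ℝ} (hX : 1 < X) (hδ : 0 < δ) (l n : ℕ)
    (hln : X ^ (Y + θ + 2 * δ) < (l : ℝ) * n) : Wt a₀ ρ h X θ δ Y l n = 0 := by
  have hX0 : 0 < X := by linarith
  have hlX : 0 < Real.log X := Real.log_pos hX
  have h0 : (0 : ℝ) < (l : ℝ) * n := lt_trans (Real.rpow_pos_of_pos hX0 _) hln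
  have hl : (l : ℝ) ≠ 0 := left_ne_zero_of_mul h0.ne'
  have hn : (n : ℝ) ≠ 0 := right_ne_zero_of_mul h0.ne'
  have h1 := Real.log_lt_log (Real.rpow_pos_of_pos hX0 _) hln
  rw [Real.log_rpow hX0, Real.log_mul hl hn] at h1
  unfold Wt
  rw [Real.smoothTransition.one_of_one_le, sub_self, mul_zero]
  rw [le_div_iff₀ hδ]
  have h2 : Y + θ + 2 * δ ≤ (Real.log n + Real.log l) / Real.log X := by
    rw [le_div_iff₀ hlX]
    linarith
  linarith

private lemma x9_psiR_sub (R : ℕ → Prop) (lam : ℝ) {Z : ℝ} (hZ : 0 ≤ Z) (f g : ℕ → ℝ) {e : ℝ}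
    (hfg : ∀ p, |f p - g p| ≤ e) :
    |psiR R lam Z f - psiR R lam Z g| ≤
      e * ∑ p ∈ (Icc 1 ⌊3 * Z⌋₊).filter (fun p => p.Prime), Real.log p * OmL lam Z p := by
  classical
  have he : 0 ≤ e := (abs_nonneg _).trans (hfg 0)
  have hnn : ∀ p : ℕ, 0 ≤ Real.log p * OmL lam Z p := fun p =>
    mul_nonneg (Real.log_natCast_nonneg p) (Ros.OmL_nonneg lam hZ p)
  unfold psiR
  rw [← Finset.sum_sub_distrib]
  refine (Finset.abs_sum_le_sum_abs _ _).trans ?_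
  rw [Finset.mul_sum]
  calc _ ≤ ∑ p ∈ (Icc 1 ⌊3 * Z⌋₊).filter (fun p => p.Prime ∧ R p),
        e * (Real.log p * OmL lam Z p) := by
        refine Finset.sum_le_sum fun p _ => ?_
        rw [← mul_sub, abs_mul, abs_of_nonneg (hnn p), mul_comm]
        exact mul_le_mul_of_nonneg_right (hfg p) (hnn p)
    _ ≤ _ := by
        refine Finset.sum_le_sum_of_subset_of_nonneg ?_ fun p _ _ => mul_nonneg he (hnn p)
        intro p hp
        simp only [Finset.mem_filter] at hp ⊢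
        exact ⟨hp.1, hp.2.1⟩

theorem p_X9 (h1 : S_X1) (h7 : S_X7) : S_X9 := by
  intro lam hlam θ δ hθ hδ hδ4 hθδ η hη0 hη1 r hr c₀ hc₀ σ hσ a₀ ha₀ ρ h hρ hh ε' hε'
  obtain ⟨Xt, hXt⟩ := ytil_trunc hδ hθ hθδ hρ hh a₀ ha₀ σ
  obtain ⟨C, Xl, hC, hXl⟩ := lipW_Wt θ δ hθ hδ hθδ a₀ ha₀ hρ hh
  obtain ⟨C1, Z1, hC1, hZ1⟩ := h1 lam hlam
  obtain ⟨Z7, hZ7⟩ := h7 lam hlam η hη0 hη1 (ε' / (2 * C)) (by positivity)
  refine ⟨max (max (max Xt Xl) (max Z1 Z7)) (max 2 (2 * C1 / ε')), ?_⟩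
  intro X hX Z hXZ Y hY hYZ
  have g1 : Xt ≤ X := le_trans (le_trans (le_trans (le_max_left _ _) (le_max_left _ _))
    (le_max_left _ _)) hX
  have g2 : Xl ≤ X := le_trans (le_trans (le_trans (le_max_right _ _) (le_max_left _ _))
    (le_max_left _ _)) hX
  have g3 : Z1 ≤ X := le_trans (le_trans (le_trans (le_max_left _ _) (le_max_right _ _))
    (le_max_left _ _)) hX
  have g4 : Z7 ≤ X := le_trans (le_trans (le_trans (le_max_right _ _) (le_max_right _ _))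
    (le_max_left _ _)) hX
  have g5 : 2 ≤ X := le_trans (le_trans (le_max_left _ _) (le_max_right _ _)) hX
  have g6 : 2 * C1 / ε' ≤ X := le_trans (le_trans (le_max_right _ _) (le_max_right _ _)) hX
  have hX0 : 0 < X := by linarith
  have hX1 : 1 < X := by linarith
  have hZ0 : 0 < Z := by linarith
  have hM : 1 ≤ ⌊X ^ 2⌋₊ := by
    rw [Nat.one_le_floor_iff]
    nlinarith
  -- first step: truncation
  have s1 := x9_psiR_sub (fun p => p % 8 = r) lam hZ0.le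
    (fun p => ytil a₀ σ ρ h X (c₀ * p) Y) (fun p => TT a₀ σ ρ h X θ δ (c₀ * p) Y)
    (fun p => (hXt X g1 Y hY (c₀ * p)).2.2)
  have s2 := (hZ1 Z (g3.trans hXZ)).2.2
  have s3 : X ^ (-30 : ℝ) * C1 ≤ ε' / 2 := by
    have e1 : X ^ (-30 : ℝ) ≤ X ^ (-1 : ℝ) :=
      Real.rpow_le_rpow_of_exponent_le hX1.le (by norm_num)
    rw [Real.rpow_neg_one] at e1
    have e2 : X⁻¹ * C1 ≤ ε' / 2 := by
      rw [inv_mul_le_iff₀ hX0]
      rw [div_le_iff₀ hε'] at g6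
      linarith
    exact (mul_le_mul_of_nonneg_right e1 hC1.le).trans e2
  have s4 : |psiR (fun p => p % 8 = r) lam Z (fun p => ytil a₀ σ ρ h X (c₀ * p) Y) -
      psiR (fun p => p % 8 = r) lam Z (fun p => TT a₀ σ ρ h X θ δ (c₀ * p) Y)| ≤ ε' / 2 * Z := by
    refine s1.trans ?_
    calc X ^ (-30 : ℝ) * _ ≤ X ^ (-30 : ℝ) * (C1 * Z) :=
          mul_le_mul_of_nonneg_left s2 (Real.rpow_nonneg hX0.le _)
      _ = (X ^ (-30 : ℝ) * C1) * Z := by ring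
      _ ≤ ε' / 2 * Z := mul_le_mul_of_nonneg_right s3 hZ0.le
  -- second step
  have hW := hXl X g2 Y hY
  have s5 := hZ7 Z (g4.trans hXZ) r hr c₀ hc₀ σ hσ (Wt a₀ ρ h X θ δ Y) W1 C 1
    (X ^ (Y + θ + 2 * δ)) 1 ⌊X ^ 2⌋₊ hW.bd
    (by
      intro l n
      unfold W1
      split_ifs <;> simp)
    (Real.rpow_nonneg hX0.le _) zero_le_one
    (by
      rw [mul_one, Real.rpow_def_of_pos hX0, Real.rpow_def_of_pos hZ0, Real.exp_le_exp]
      linarith)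
    (fun l n hln => x9_Wt_supp a₀ ρ h hX1 hδ l n hln)
    (by
      intro l n hln
      unfold W1
      rw [if_neg]
      rintro ⟨rfl, rfl⟩
      norm_num at hln)
  have s6 : (fun p => LW (Wt a₀ ρ h X θ δ Y) σ ⌊X ^ 2⌋₊ (c₀ * p) *
      LW W1 σ ⌊X ^ 2⌋₊ (c₀ * p)) = fun p => TT a₀ σ ρ h X θ δ (c₀ * p) Y := by
    funext p
    rw [x9_LW_one σ hM, mul_one]
    rfl
  rw [s6] at s5
  have s7 : C * 1 * (ε' / (2 * C) * Z) = ε' / 2 * Z := by
    field_simp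
  rw [s7] at s5
  have s8 := abs_add_le
    (psiR (fun p => p % 8 = r) lam Z (fun p => ytil a₀ σ ρ h X (c₀ * p) Y) -
      psiR (fun p => p % 8 = r) lam Z (fun p => TT a₀ σ ρ h X θ δ (c₀ * p) Y))
    (psiR (fun p => p % 8 = r) lam Z (fun p => TT a₀ σ ρ h X θ δ (c₀ * p) Y) -
      psiR (fun p => p % 8 = r) lam Z (fun _ => 1) *
        quad (Wt a₀ ρ h X θ δ Y) W1 1 ⌊X ^ 2⌋₊ isq)
  rw [sub_add_sub_cancel] at s8
  refine s8.trans ?_
  calc _ ≤ ε' / 2 * Z + ε' / 2 * Z := add_le_add s4 s5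
    _ = ε' * Z := by ring

end Pool.Agent.MP0016c7.PC
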