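import Pool.Agent.Lib.MP_0016c7_nt.PC.X.StmX2

set_option autoImplicit false

/-!
Block [X], piece Xc: the limit covariance.
-/

open Finset MeasureTheory Filter Topology
open scoped Real ContDiff

namespace Pool.Agent.MP0016c7.PC

open Pool.Agent.MP0016c7.Rz

private lemma Xc_int {ρ : ℝ → ℝ} {a b : ℝ} (h : Bump ρ a b) : Integrable ρ := by
  refine (h.smooth.continuous).integrable_of_hasCompactSupport ?_
  refine HasCompactSupport.intro (K := Set.Icc a b) isCompact_Icc (fun x hx => ?_)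
  by_contra hne
  exact hx ⟨(h.supp x hne).1.le, (h.supp x hne).2.le⟩

private lemma Xc_HH_le {h : ℝ → ℝ} {a θ : ℝ} (hh : Bump h a θ) (t : ℝ) : |HH h t| ≤ ∫ x, |h x| := by
  unfold HH
  calc |∫ x in Set.Ioi t, h x| ≤ ∫ x in Set.Ioi t, |h x| := abs_integral_le_integral_abs
    _ ≤ ∫ x, |h x| := by
      apply setIntegral_le_integral (Xc_int hh).abs
      exact Filter.Eventually.of_forall (fun x => abs_nonneg _)

private lemma Xc_HH_one {h : ℝ → ℝ} {a θ : ℝ} (hh : Bump h a θ) (h1 : ∫ t, h t = 1) {v : ℝ}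
    (hv : v ≤ a) : HH h v = 1 := by
  unfold HH
  rw [setIntegral_eq_integral_of_forall_compl_eq_zero, h1]
  intro x hx
  by_contra hne
  exact hx (Set.mem_Ioi.mpr (lt_of_le_of_lt hv (hh.supp x hne).1))

private lemma Xc_bd1 {δ θ₁ θ₂ : ℝ} (hδ4 : δ ≤ 1 / 4) {ρ₁ ρ₂ h₁ h₂ : ℝ → ℝ}
    (hρ₁ : Bump ρ₁ (-(δ / 2)) (δ / 2)) (hρ₂ : Bump ρ₂ (-(δ / 2)) (δ / 2))
    (hh₁ : Bump h₁ 0 θ₁) (hh₂ : Bump h₂ 0 θ₂) :
    ∃ B : ℝ, 0 < B ∧ ∀ Y₁ ∈ Set.Icc (-1 : ℝ) (1 / 2 + δ), ∀ Y₂ ∈ Set.Icc (-1 : ℝ) (1 / 2 + δ),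
      |CD2 ρ₁ ρ₂ h₁ h₂ Y₁ Y₂| ≤ B := by
  set A₁ := ∫ x, |h₁ x| with hA₁
  set A₂ := ∫ x, |h₂ x| with hA₂
  set H := ∫ t, h₁ t * h₂ t with hH
  have hA10 : 0 ≤ A₁ := integral_nonneg (fun x => abs_nonneg _)
  have hA20 : 0 ≤ A₂ := integral_nonneg (fun x => abs_nonneg _)
  have hH0 : 0 ≤ |H| := abs_nonneg _
  set C₀ := A₁ * A₂ + |H| * 2 with hC₀
  have hC0 : 0 ≤ C₀ := by (clear * - hA10 hA20 hH0; positivity)
  have hint1 := Xc_int hρ₁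
  have hint2 := Xc_int hρ₂
  set R₁ := ∫ x, |ρ₁ x| with hR₁
  set R₂ := ∫ x, |ρ₂ x| with hR₂
  have hR10 : 0 ≤ R₁ := integral_nonneg (fun x => abs_nonneg _)
  have hR20 : 0 ≤ R₂ := integral_nonneg (fun x => abs_nonneg _)
  refine ⟨R₁ * (C₀ * R₂) + 1, by positivity, fun Y₁ hY₁ Y₂ hY₂ => ?_⟩
  unfold CD2
  have hpt : ∀ x y : ℝ, |ρ₁ x * ρ₂ y * (HH h₁ (x - Y₁) * HH h₂ (y - Y₂) +
      H * max (min (Y₁ - x) (Y₂ - y)) 0)| ≤ |ρ₁ x| * (C₀ * |ρ₂ y|) := by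
    intro x y
    by_cases hx : ρ₁ x = 0
    · simp [hx]
    have hx' := hρ₁.supp x hx
    rw [abs_mul, abs_mul]
    have h1 : |HH h₁ (x - Y₁) * HH h₂ (y - Y₂) + H * max (min (Y₁ - x) (Y₂ - y)) 0| ≤ C₀ := by
      refine (abs_add_le _ _).trans ?_
      rw [abs_mul, abs_mul]
      refine add_le_add (mul_le_mul (Xc_HH_le hh₁ _) (Xc_HH_le hh₂ _) (abs_nonneg _) hA10) ?_
      refine mul_le_mul_of_nonneg_left ?_ hH0
      have h1 : 0 ≤ max (min (Y₁ - x) (Y₂ - y)) 0 := le_max_right _ _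
      rw [abs_of_nonneg h1]
      exact max_le ((min_le_left _ _).trans (by linarith only [hδ4, hx'.1, hY₁.2])) (by norm_num)
    calc |ρ₁ x| * |ρ₂ y| * _ ≤ |ρ₁ x| * |ρ₂ y| * C₀ := by gcongr
      _ = |ρ₁ x| * (C₀ * |ρ₂ y|) := by ring
  have hin : ∀ x : ℝ, |∫ y : ℝ, ρ₁ x * ρ₂ y * (HH h₁ (x - Y₁) * HH h₂ (y - Y₂) +
      H * max (min (Y₁ - x) (Y₂ - y)) 0)| ≤ |ρ₁ x| * (C₀ * R₂) := by
    intro x
    have := norm_integral_le_of_norm_le (μ := volume)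
      (f := fun y : ℝ => ρ₁ x * ρ₂ y * (HH h₁ (x - Y₁) * HH h₂ (y - Y₂) +
        H * max (min (Y₁ - x) (Y₂ - y)) 0))
      (g := fun y => |ρ₁ x| * (C₀ * |ρ₂ y|)) ((hint2.abs.const_mul C₀).const_mul |ρ₁ x|)
      (Filter.Eventually.of_forall (fun y => hpt x y))
    rw [integral_const_mul, integral_const_mul, ← hR₂] at this
    exact this
  have := norm_integral_le_of_norm_le (μ := volume)
      (f := fun x : ℝ => ∫ y : ℝ, ρ₁ x * ρ₂ y * (HH h₁ (x - Y₁) * HH h₂ (y - Y₂) +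
        H * max (min (Y₁ - x) (Y₂ - y)) 0))
      (g := fun x => |ρ₁ x| * (C₀ * R₂)) (hint1.abs.mul_const (C₀ * R₂))
      (Filter.Eventually.of_forall (fun x => hin x))
  rw [integral_mul_const, ← hR₁] at this
  refine le_trans this ?_
  linarith

private lemma Xc_bd2 {δ θ₁ : ℝ} {ρ₁ h₁ : ℝ → ℝ}
    (hρ₁ : Bump ρ₁ (-(δ / 2)) (δ / 2)) (hh₁ : Bump h₁ 0 θ₁) :
    ∃ B : ℝ, 0 < B ∧ ∀ Y₁ : ℝ, |∫ y, ρ₁ y * HH h₁ (y - Y₁)| ≤ B := by
  have hA10 : 0 ≤ ∫ x, |h₁ x| := integral_nonneg (fun x => abs_nonneg _)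
  have hR10 : 0 ≤ ∫ x, |ρ₁ x| := integral_nonneg (fun x => abs_nonneg _)
  refine ⟨(∫ x, |ρ₁ x|) * (∫ x, |h₁ x|) + 1, by positivity, fun Y₁ => ?_⟩
  have := norm_integral_le_of_norm_le (μ := volume)
      (f := fun y : ℝ => ρ₁ y * HH h₁ (y - Y₁))
      (g := fun y => |ρ₁ y| * (∫ x, |h₁ x|)) ((Xc_int hρ₁).abs.mul_const _)
      (Filter.Eventually.of_forall (fun y => by
        rw [Real.norm_eq_abs, abs_mul]
        exact mul_le_mul_of_nonneg_left (Xc_HH_le hh₁ _) (abs_nonneg _)))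
  rw [integral_mul_const] at this
  refine le_trans this ?_
  linarith

theorem p_Xc : S_Xc := by
  intro δ θ₁ θ₂ hδ hδ4 ρ₁ ρ₂ h₁ h₂ hρ₁ hρ₂ hh₁ hh₂
  refine ⟨Xc_bd1 hδ4 hρ₁ hρ₂ hh₁ hh₂, Xc_bd2 hρ₁ hh₁, ?_, ?_⟩
  · intro Y₁ Y₂ hY
    unfold CC2 CD2
    congr 1
    funext x
    congr 1
    funext y
    by_cases hx : ρ₁ x = 0
    · simp [hx]
    by_cases hy : ρ₂ y = 0
    · simp [hy]
    have hx' := hρ₁.supp x hx
    have hy' := hρ₂.supp y hy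
    have h1 : max (Y₁ - x + (Y₂ - y) - 1) 0 = 0 :=
      max_eq_right (by linarith only [hx'.1, hy'.1, hY])
    rw [h1, sub_zero]
  · intro hρ₂1 hh₂1 hh₂'
    refine ⟨?_, ?_⟩
    · intro Y₁
      unfold CD2
      have e : ∀ x : ℝ, (∫ y : ℝ, ρ₁ x * ρ₂ y * (HH h₁ (x - Y₁) * HH h₂ (y - (-(3 * δ / 4))) +
          (∫ t : ℝ, h₁ t * h₂ t) * max (min (Y₁ - x) (-(3 * δ / 4) - y)) 0)) =
          ρ₁ x * HH h₁ (x - Y₁) := by
        intro x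
        have e1 : (fun y : ℝ => ρ₁ x * ρ₂ y * (HH h₁ (x - Y₁) * HH h₂ (y - (-(3 * δ / 4))) +
            (∫ t : ℝ, h₁ t * h₂ t) * max (min (Y₁ - x) (-(3 * δ / 4) - y)) 0)) =
            fun y : ℝ => (ρ₁ x * HH h₁ (x - Y₁)) * ρ₂ y := by
          funext y
          by_cases hy : ρ₂ y = 0
          · simp [hy]
          have hy' := hρ₂.supp y hy
          have h1 : max (min (Y₁ - x) (-(3 * δ / 4) - y)) 0 = 0 :=
            max_eq_right ((min_le_right _ _).trans (by linarith only [hy'.1, hδ]))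
          have h2 : HH h₂ (y - (-(3 * δ / 4))) = 1 :=
            Xc_HH_one hh₂' hh₂1 (by linarith only [hy'.2])
          rw [h1, h2]
          ring
        rw [e1, integral_const_mul, hρ₂1, mul_one]
      simp only [e]
    · have e1 : (fun y : ℝ => ρ₂ y * HH h₂ (y - (-(3 * δ / 4)))) = ρ₂ := by
        funext y
        by_cases hy : ρ₂ y = 0
        · simp [hy]
        have hy' := hρ₂.supp y hy
        rw [Xc_HH_one hh₂' hh₂1 (by linarith only [hy'.2]), mul_one]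
      rw [e1, hρ₂1]

end Pool.Agent.MP0016c7.PC
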