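import Pool.Agent.Lib.MP_0016c7_nt.PC.X.StmX2
import Pool.Agent.Lib.MP_0da313_nt.BV.SmallCor

set_option autoImplicit false

/-!
Block [X]: lower bound of the mass.
-/

open Finset MeasureTheory Filter Topology
open scoped Real ContDiff

namespace Pool.Agent.MP0016c7.PC

theorem p_Xd (h3 : S_X3) : S_Xd := by
  intro lam hlam r hr
  have hlam0 : 0 < lam := by linarith
  obtain ⟨Z1, hZ1⟩ := h3 lam hlam r hr (1 / (384 * lam)) (by positivity)
  have hl : ∀ᶠ X : ℝ in atTop, 144 * lam ≤ Real.log X :=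
    Real.tendsto_log_atTop.eventually_ge_atTop _
  obtain ⟨Z2, hZ2⟩ := Filter.eventually_atTop.1
    ((Pool.Agent.BVall.psiXL_lower hlam).and
      ((Pool.Agent.BVall.psiXL_approx 1 hlam).and (hl.and (eventually_ge_atTop (1 : ℝ)))))
  refine ⟨1 / (384 * lam), max Z1 Z2, by positivity, fun Z hZ => ?_⟩
  obtain ⟨a1, a2, a3, a4⟩ := hZ2 Z ((le_max_right _ _).trans hZ)
  have b1 := hZ1 Z ((le_max_left _ _).trans hZ)
  have hSO : (∑ n ∈ Icc 1 ⌊3 * Z⌋₊, Pool.Agent.BVall.OmL lam Z n) = SO lam Z := rfl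
  rw [hSO, pow_one] at a2
  have hlog : 0 < Real.log Z := by nlinarith
  have c1 : 3 * (Z / Real.log Z) ≤ Z / (48 * lam) := by
    rw [mul_div_assoc', div_le_div_iff₀ hlog (by positivity)]
    nlinarith
  have c2 := (abs_le.1 a2).2
  have c3 := (abs_le.1 b1).1
  have d1 : Z / (24 * lam) = 16 * (1 / (384 * lam) * Z) := by field_simp; ring
  have d2 : Z / (48 * lam) = 8 * (1 / (384 * lam) * Z) := by field_simp; ring
  have d3 : 0 ≤ 1 / (384 * lam) * Z := by positivity
  rw [d1] at a1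
  rw [d2] at c1
  constructor
  · linarith
  · linarith

end Pool.Agent.MP0016c7.PC
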