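import Mathlib
import Pool.Agent.Lib.MP_0016c7_nt.PC.FEU6
import Pool.Agent.Lib.MP_0016c7_nt.PC.TwE
import Pool.Agent.Lib.MP_0016c7_nt.PC.W.P1
import Pool.Agent.Lib.MP_0016c7_nt.PC.W.P2
import Pool.Agent.Lib.MP_0016c7_nt.PC.X.X1
import Pool.Agent.Lib.MP_0016c7_nt.PC.X.X2
import Pool.Agent.Lib.MP_0016c7_nt.PC.X.X3
import Pool.Agent.Lib.MP_0016c7_nt.PC.X.X4
import Pool.Agent.Lib.MP_0016c7_nt.PC.X.X5
import Pool.Agent.Lib.MP_0016c7_nt.PC.X.X6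
import Pool.Agent.Lib.MP_0016c7_nt.PC.X.X7
import Pool.Agent.Lib.MP_0016c7_nt.PC.X.X8
import Pool.Agent.Lib.MP_0016c7_nt.PC.X.X9
import Pool.Agent.Lib.MP_0016c7_nt.PC.X.Xc
import Pool.Agent.Lib.MP_0016c7_nt.PC.X.Xd
import Pool.Agent.Lib.MP_0016c7_nt.PC.X.Asm

set_option autoImplicit false

/-!
Block [X]: the exact moments over the primes of a class modulo `8`, unconditionally.
-/

namespace Pool.Agent.MP0016c7.PC

private theorem xf_X3 : S_X3 := p_X3 fe_EU p_X1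

private theorem xf_X7 : S_X7 :=
  p_X7 (p_X2 p_X1) (p_X4 fe_EU p_W1 (p_X2 p_X1)) (p_X5 p_W2) p_X6

private theorem xf_X8 : S_X8 := p_X8 p_X1 xf_X3 xf_X7 p_Xc jf_quadD

private theorem xf_X9 : S_X9 := p_X9 p_X1 xf_X7

theorem jf_zmP : JF_zmP := x_zmP xf_X3

theorem jf_covP : JF_covP := x_covP xf_X8 p_Xc

theorem jf_fmP : JF_fmP :=
  x_fmP p_X1 xf_X3 xf_X9 p_Xc (p_X10 p_X1 xf_X3 xf_X8 xf_X9 p_Xc (p_Xd xf_X3))

end Pool.Agent.MP0016c7.PC
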