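import Mathlib
import Pool.Agent.Lib.MP_0016c7_nt.PC.X.StmX

set_option autoImplicit false

/-!
Block [X], piece [X6]: the average of the product of two truncated processes.
-/

open Finset MeasureTheory Filter Topology
open scoped Real ContDiff

namespace Pool.Agent.MP0016c7.PC

open Pool.Agent.MP0016c7.Rz
open Pool.Agent.BVall (OmL)

private lemma x6_jr_mul (k : ℤ) (m n : ℕ) : jr k (m * n) = jr k m * jr k n := by
  unfold jr
  by_cases hm : Odd m
  · by_cases hn : Odd n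
    · have hmn : Odd (m * n) := hm.mul hn
      have : NeZero m := ⟨hm.pos.ne'⟩
      have : NeZero n := ⟨hn.pos.ne'⟩
      rw [if_pos hm, if_pos hn, if_pos hmn, jacobiSym.mul_right]
      push_cast
      ring
    · have hmn : ¬ Odd (m * n) := fun h => hn (Nat.odd_mul.1 h).2
      rw [if_neg hn, if_neg hmn, mul_zero]
  · have hmn : ¬ Odd (m * n) := fun h => hm (Nat.odd_mul.1 h).1
    rw [if_neg hm, if_neg hmn, zero_mul]

private lemma x6_quad_add (W₁ W₂ : ℕ → ℕ → ℝ) (r K : ℕ) (f g : ℕ → ℝ) :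
    quad W₁ W₂ r K (fun N => f N + g N) = quad W₁ W₂ r K f + quad W₁ W₂ r K g := by
  unfold quad
  simp only [← Finset.sum_add_distrib]
  refine Finset.sum_congr rfl fun n₁ _ => Finset.sum_congr rfl fun l₁ _ =>
    Finset.sum_congr rfl fun n₂ _ => Finset.sum_congr rfl fun l₂ _ => ?_
  split_ifs
  · ring
  · simp

private lemma x6_quad_smul (W₁ W₂ : ℕ → ℕ → ℝ) (r K : ℕ) (a : ℝ) (f : ℕ → ℝ) :
    quad W₁ W₂ r K (fun N => a * f N) = a * quad W₁ W₂ r K f := by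
  unfold quad
  simp only [Finset.mul_sum]
  refine Finset.sum_congr rfl fun n₁ _ => Finset.sum_congr rfl fun l₁ _ =>
    Finset.sum_congr rfl fun n₂ _ => Finset.sum_congr rfl fun l₂ _ => ?_
  split_ifs
  · ring
  · simp

private lemma x6_quad_sum (W₁ W₂ : ℕ → ℕ → ℝ) (r K : ℕ) (S : Finset ℕ) (f : ℕ → ℕ → ℝ) :
    quad W₁ W₂ r K (fun N => ∑ d ∈ S, f d N) = ∑ d ∈ S, quad W₁ W₂ r K (f d) := by
  induction S using Finset.induction_on with
  | empty =>
    have := x6_quad_smul W₁ W₂ r K 0 (fun _ => 0)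
    simpa using this
  | insert x T hx ih =>
    simp only [Finset.sum_insert hx]
    rw [x6_quad_add, ih]

private lemma x6_prod (W₁ W₂ : ℕ → ℕ → ℝ) (σ : ℤ) (M d : ℕ) :
    LW W₁ σ M d * LW W₂ σ M d = quad W₁ W₂ 1 M (fun N => jr (2 * σ * (d : ℤ)) N) := by
  unfold LW quad
  rw [Finset.sum_mul]
  refine Finset.sum_congr rfl fun n₁ _ => ?_
  rw [Finset.sum_mul]
  refine Finset.sum_congr rfl fun l₁ _ => ?_
  rw [Finset.mul_sum]
  refine Finset.sum_congr rfl fun n₂ _ => ?_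
  rw [Finset.mul_sum]
  refine Finset.sum_congr rfl fun l₂ _ => ?_
  have e1 : jr (2 * σ * (d : ℤ)) (n₁ * l₁) * jr (2 * σ * (d : ℤ)) (n₂ * l₂) =
      jr (2 * σ * (d : ℤ)) (n₁ * l₁ * n₂ * l₂) := by
    rw [← x6_jr_mul]
    congr 1
    ring
  have e2 : √((n₁ * l₁ : ℕ) : ℝ) * √((n₂ * l₂ : ℕ) : ℝ) = √((n₁ * l₁ * n₂ * l₂ : ℕ) : ℝ) := by
    rw [← Real.sqrt_mul (by positivity)]
    congr 1
    push_cast
    ring
  have e3 : (ArithmeticFunction.moebius l₁ : ℝ) * jr (2 * σ * (d : ℤ)) (n₁ * l₁) /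
        √((n₁ * l₁ : ℕ) : ℝ) * W₁ l₁ n₁ *
      ((ArithmeticFunction.moebius l₂ : ℝ) * jr (2 * σ * (d : ℤ)) (n₂ * l₂) /
        √((n₂ * l₂ : ℕ) : ℝ) * W₂ l₂ n₂) =
      (ArithmeticFunction.moebius l₁ : ℝ) * (ArithmeticFunction.moebius l₂ : ℝ) *
      W₁ l₁ n₁ * W₂ l₂ n₂ / (√((n₁ * l₁ : ℕ) : ℝ) * √((n₂ * l₂ : ℕ) : ℝ)) *
      (jr (2 * σ * (d : ℤ)) (n₁ * l₁) * jr (2 * σ * (d : ℤ)) (n₂ * l₂)) := by
    ring
  rw [e3, e1, e2]
  by_cases hc : Nat.Coprime (n₁ * l₁ * n₂ * l₂) (2 * 1)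
  · rw [if_pos hc]
  · have hno : ¬ Odd (n₁ * l₁ * n₂ * l₂) := by
      intro ho
      apply hc
      rw [mul_one]
      exact Nat.coprime_two_right.2 ho
    rw [if_neg hc]
    have : jr (2 * σ * (d : ℤ)) (n₁ * l₁ * n₂ * l₂) = 0 := by
      unfold jr
      rw [if_neg hno]
    rw [this, mul_zero]

theorem p_X6 : S_X6 := by
  intro W₁ W₂ r c₀ M σ lam Z
  have h : fP r c₀ σ lam Z = fun N => ∑ p ∈ (Icc 1 ⌊3 * Z⌋₊).filter
      (fun p => p.Prime ∧ p % 8 = r), Real.log p * OmL lam Z p *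
        jr (2 * σ * ((c₀ * p : ℕ) : ℤ)) N := by
    funext N
    unfold fP psiR
    refine Finset.sum_congr ?_ fun p _ => rfl
    ext p
    simp only [Finset.mem_filter]
  rw [h, x6_quad_sum]
  unfold psiR
  refine Finset.sum_congr ?_ fun p _ => ?_
  · ext p
    simp only [Finset.mem_filter]
  · rw [x6_quad_smul]
    simp only []
    rw [x6_prod]

end Pool.Agent.MP0016c7.PC
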